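import Pool.Agent.Q126.RM.Stmts2

/-! MP_1c6531_pr: assembly. -/

namespace Q126.RM

open MeasureTheory Set
open scoped ENNReal

noncomputable section

theorem cardE_le (n : ℕ) : (Fintype.card (E n) : ℝ) ≤ (n : ℝ) ^ 2 / 2 := by
  -- pairs i<j and j<i are disjoint subsets of the n² pairs
  have h1 : 2 * Fintype.card (E n) ≤ n * n := by
    have hc : Fintype.card (E n) = (Finset.univ.filter fun p : Fin n × Fin n => p.1 < p.2).card := by
      rw [Fintype.card_subtype]
    have hs : (Finset.univ.filter fun p : Fin n × Fin n => p.2 < p.1).card =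
        (Finset.univ.filter fun p : Fin n × Fin n => p.1 < p.2).card := by
      refine Finset.card_bij (fun p _ => (p.2, p.1)) ?_ ?_ ?_
      · intro p hp
        simpa using hp
      · rintro ⟨a, b⟩ _ ⟨c, d⟩ _ h
        simp only [Prod.mk.injEq] at h
        rw [h.1, h.2]
      · rintro ⟨a, b⟩ hp
        exact ⟨(b, a), by simpa using hp, rfl⟩
    have hd : Disjoint (Finset.univ.filter fun p : Fin n × Fin n => p.1 < p.2)
        (Finset.univ.filter fun p : Fin n × Fin n => p.2 < p.1) := by
      rw [Finset.disjoint_left]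
      intro p h1 h2
      simp only [Finset.mem_filter, Finset.mem_univ, true_and] at h1 h2
      exact absurd h1 (not_lt.mpr h2.le)
    have hu := Finset.card_le_univ ((Finset.univ.filter fun p : Fin n × Fin n => p.1 < p.2) ∪
      (Finset.univ.filter fun p : Fin n × Fin n => p.2 < p.1))
    rw [Finset.card_union_of_disjoint hd, hs] at hu
    rw [hc]
    have : Fintype.card (Fin n × Fin n) = n * n := by simp
    omega
  have h2 : (2 : ℝ) * Fintype.card (E n) ≤ (n : ℝ) * n := by exact_mod_cast h1
  nlinarith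

theorem cardE_pos (n : ℕ) (e : E n) : 0 < Fintype.card (E n) := Fintype.card_pos_iff.mpr ⟨e⟩

/-- the main theorem from the tasks -/
theorem asm (Meas : TaskMeas) (Box : TaskBox) (Cherry : TaskCherry) (Jensen : TaskJensen) (Vol : TaskVol)
    (Sym : TaskSym) (Marg : TaskMarg) (Gibbs : TaskGibbs) (EntJ : TaskEntJ) (Left : TaskLeft)
    (Super : TaskSuper3) (Right : TaskRight2) (Ent6 : TaskEnt62) :
    ∀ n : ℕ, 3 ≤ n → ∀ e : E n,
      1 / (360 * Real.sqrt n) * (volume (M n)).toReal ≤ (volume {x | x ∈ M n ∧ x e < 1}).toReal := by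
  intro n hn e
  obtain ⟨hm, _, hp, hf⟩ := Meas n
  set V : ℝ := (volume (M n)).toReal with hV
  have hV0 : 0 < V := ENNReal.toReal_pos hp.ne' hf.ne
  have hVe : volume (M n) = ENNReal.ofReal V := (ENNReal.ofReal_toReal hf.ne).symm
  obtain ⟨f, fm, f0, fs, ⟨C, fC⟩, flc, fg⟩ := Marg Meas n e
  -- the normalised density
  set g : ℝ → ℝ := fun t => f t / V with hg
  have gm : Measurable g := fm.div_const V
  have g0 : ∀ t, 0 ≤ g t := fun t => div_nonneg (f0 t) hV0.le
  have gs : ∀ t, t ∉ Ioc (0 : ℝ) 2 → g t = 0 := fun t ht => by simp [hg, fs t ht]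
  have gC : ∀ t, g t ≤ C / V := fun t => div_le_div_of_nonneg_right (fC t) hV0.le
  have gmarg : ∀ (e' : E n) (φ : ℝ → ℝ≥0∞), Measurable φ →
      ∫⁻ x in M n, φ (x e') = ENNReal.ofReal V * ∫⁻ t, φ t * ENNReal.ofReal (g t) := by
    intro e' φ hφ
    rw [Sym n e' e φ hφ, fg φ hφ, ← lintegral_const_mul]
    · refine lintegral_congr fun t => ?_
      rw [mul_comm (ENNReal.ofReal V), mul_assoc, ← ENNReal.ofReal_mul (g0 t)]
      congr 2
      simp only [hg]
      field_simp
    · exact hφ.mul gm.ennreal_ofReal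
  have g1l : ∫⁻ t, ENNReal.ofReal (g t) = 1 := by
    have h := gmarg e (fun _ => 1) measurable_const
    simp only [one_mul, lintegral_one, Measure.restrict_apply MeasurableSet.univ, univ_inter] at h
    rw [hVe] at h
    have hVne : ENNReal.ofReal V ≠ 0 := by simpa using hV0
    have : ENNReal.ofReal V * 1 = ENNReal.ofReal V * ∫⁻ t, ENNReal.ofReal (g t) := by rw [mul_one]; exact h
    exact ((ENNReal.mul_right_inj hVne ENNReal.ofReal_ne_top).mp this).symm
  have g1 : ∫ t, g t = 1 := by
    rw [integral_eq_lintegral_of_nonneg_ae (Filter.Eventually.of_forall g0) gm.aestronglyMeasurable, g1l]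
    simp
  have glc : ∀ s t l : ℝ, 0 < l → l < 1 → g s ^ l * g t ^ (1 - l) ≤ g (l * s + (1 - l) * t) := by
    intro s t l h0 h1
    simp only [hg]
    rw [Real.div_rpow (f0 s) hV0.le, Real.div_rpow (f0 t) hV0.le, div_mul_div_comm, ← Real.rpow_add hV0]
    have : l + (1 - l) = 1 := by ring
    rw [this, Real.rpow_one]
    exact div_le_div_of_nonneg_right (flc s t l h0 h1) hV0.le
  have hLC : LC g := ⟨gm, g0, gs, ⟨_, gC⟩, g1, glc⟩
  have hG := Gibbs n g V hm hV0 hVe gm g0 ⟨_, gC⟩ gs g1 gmarg
  have hE := Ent6 EntJ Left Super Right g hLC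
  -- log V
  have hvol := Vol Meas Box Cherry Jensen n hn
  have hlog : (n : ℝ) * Real.sqrt n / 120 ≤ Real.log V := by
    rw [Real.le_log_iff_exp_le hV0]
    exact hvol
  have hN := cardE_le n
  have hN0 : (0 : ℝ) < Fintype.card (E n) := by exact_mod_cast cardE_pos n e
  have heps0 : 0 ≤ eps g := integral_nonneg fun t => g0 t
  -- eps g ≥ 1/(360 √n)
  have hn0 : (0 : ℝ) < n := by
    have : (3 : ℝ) ≤ n := by exact_mod_cast hn
    linarith
  have hs0 : 0 < Real.sqrt n := Real.sqrt_pos.mpr hn0
  have key : 1 / (360 * Real.sqrt n) ≤ eps g := by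
    have h1 : (n : ℝ) * Real.sqrt n / 120 ≤ (Fintype.card (E n) : ℝ) * (6 * eps g) := by
      have : -(Fintype.card (E n) : ℝ) * ∫ t, g t * Real.log (g t) ≤ (Fintype.card (E n) : ℝ) * (6 * eps g) := by
        rw [neg_mul, ← mul_neg]
        exact mul_le_mul_of_nonneg_left hE hN0.le
      linarith
    have h2 : (Fintype.card (E n) : ℝ) * (6 * eps g) ≤ (n : ℝ) ^ 2 / 2 * (6 * eps g) :=
      mul_le_mul_of_nonneg_right hN (by positivity)
    have h3 : (n : ℝ) * Real.sqrt n / 120 ≤ 3 * (n : ℝ) ^ 2 * eps g := by linarith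
    have hsq : Real.sqrt n * Real.sqrt n = n := Real.mul_self_sqrt hn0.le
    rw [div_le_iff₀ (by positivity)]
    have h4 : (n : ℝ) * Real.sqrt n ≤ 360 * (n : ℝ) ^ 2 * eps g := by linarith
    have h5 : (n : ℝ) * Real.sqrt n * 1 ≤ (n : ℝ) * Real.sqrt n * (eps g * (360 * Real.sqrt n)) := by
      have : (n : ℝ) * Real.sqrt n * (eps g * (360 * Real.sqrt n)) =
          360 * (n : ℝ) * (Real.sqrt n * Real.sqrt n) * eps g := by ring
      rw [this, hsq]
      nlinarith
    exact le_of_mul_le_mul_left h5 (by positivity)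
  -- the probability
  have hprob : volume {x | x ∈ M n ∧ x e < 1} = ENNReal.ofReal (V * eps g) := by
    have h := gmarg e (Set.indicator (Iio 1) 1) (measurable_one.indicator measurableSet_Iio)
    have hl : ∫⁻ x in M n, (Set.indicator (Iio (1 : ℝ)) (1 : ℝ → ℝ≥0∞)) (x e) =
        volume {x | x ∈ M n ∧ x e < 1} := by
      have hA : MeasurableSet {x : E n → ℝ | x e < 1} := measurableSet_lt (measurable_pi_apply e) measurable_const
      have : (fun x : E n → ℝ => (Set.indicator (Iio (1 : ℝ)) (1 : ℝ → ℝ≥0∞)) (x e)) =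
          Set.indicator {x : E n → ℝ | x e < 1} 1 := by
        funext x
        by_cases hx : x e < 1
        · rw [indicator_of_mem (show x e ∈ Iio (1 : ℝ) from hx),
            indicator_of_mem (show x ∈ {x : E n → ℝ | x e < 1} from hx)]
          rfl
        · rw [indicator_of_notMem (show x e ∉ Iio (1 : ℝ) from hx),
            indicator_of_notMem (show x ∉ {x : E n → ℝ | x e < 1} from hx)]
      rw [this, lintegral_indicator_one hA, Measure.restrict_apply hA]
      congr 1
      ext x
      simp [and_comm]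
    have hr : ∫⁻ t, (Set.indicator (Iio (1 : ℝ)) (1 : ℝ → ℝ≥0∞)) t * ENNReal.ofReal (g t) =
        ENNReal.ofReal (eps g) := by
      have h1 : ∫⁻ t, (Set.indicator (Iio (1 : ℝ)) (1 : ℝ → ℝ≥0∞)) t * ENNReal.ofReal (g t) =
          ∫⁻ t in Iio 1, ENNReal.ofReal (g t) := by
        rw [← lintegral_indicator measurableSet_Iio]
        refine lintegral_congr fun t => ?_
        by_cases ht : t < 1
        · rw [indicator_of_mem (show t ∈ Iio (1 : ℝ) from ht), indicator_of_mem (show t ∈ Iio (1 : ℝ) from ht)]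
          simp
        · rw [indicator_of_notMem (show t ∉ Iio (1 : ℝ) from ht),
            indicator_of_notMem (show t ∉ Iio (1 : ℝ) from ht), zero_mul]
      have h2 : ∫⁻ t in Iio 1, ENNReal.ofReal (g t) = ∫⁻ t in Iic 1, ENNReal.ofReal (g t) := by
        rw [Measure.restrict_congr_set Iio_ae_eq_Iic]
      have h3 : ∫⁻ t in Iic 1, ENNReal.ofReal (g t) = ∫⁻ t in Ioc 0 1, ENNReal.ofReal (g t) := by
        rw [← lintegral_indicator measurableSet_Iic, ← lintegral_indicator measurableSet_Ioc]
        refine lintegral_congr fun t => ?_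
        by_cases ht : t ≤ 1
        · by_cases ht0 : 0 < t
          · rw [indicator_of_mem (show t ∈ Iic (1 : ℝ) from ht),
              indicator_of_mem (show t ∈ Ioc (0 : ℝ) 1 from ⟨ht0, ht⟩)]
          · rw [indicator_of_mem (show t ∈ Iic (1 : ℝ) from ht),
              indicator_of_notMem (show t ∉ Ioc (0 : ℝ) 1 from fun h => ht0 h.1),
              gs t (fun h => ht0 h.1)]
            simp
        · rw [indicator_of_notMem (show t ∉ Iic (1 : ℝ) from ht),
            indicator_of_notMem (show t ∉ Ioc (0 : ℝ) 1 from fun h => ht h.2)]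
      rw [h1, h2, h3]
      have hint : IntegrableOn g (Ioc 0 1) := by
        have : Integrable g := by
          by_contra hh
          rw [integral_undef hh] at g1
          exact zero_ne_one g1
        exact this.integrableOn
      rw [eps, ← ofReal_integral_eq_lintegral_ofReal hint (Filter.Eventually.of_forall g0)]
    rw [← hl, h, hr, ← ENNReal.ofReal_mul hV0.le]
  rw [hprob, ENNReal.toReal_ofReal (by positivity), mul_comm]
  exact mul_le_mul_of_nonneg_left key hV0.le

end

end Q126.RM
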