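import Mathlib

/-! MP_1c6531_pr: blueprint (lower tail of one distance in a uniform random metric space).
Prove `theorem X : TaskX` in `Pool/Agent/Q126/RM/TaskX.lean`, namespace `Q126.RM`. -/

namespace Q126.RM

open MeasureTheory Set
open scoped ENNReal

noncomputable section

/-- unordered pairs of points -/
abbrev E (n : ℕ) : Type := {p : Fin n × Fin n // p.1 < p.2}

/-- the distance of `i` and `j` -/
def D {n : ℕ} (x : E n → ℝ) (i j : Fin n) : ℝ :=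
  if h : i < j then x ⟨(i, j), h⟩ else if h : j < i then x ⟨(j, i), h⟩ else 0

/-- the metrics on `n` points with all distances at most 2 -/
def M (n : ℕ) : Set (E n → ℝ) :=
  {x | (∀ e, 0 < x e ∧ x e ≤ 2) ∧
    ∀ i j k : Fin n, i ≠ j → i ≠ k → j ≠ k → D x i j ≤ D x i k + D x k j}

/-- hint: for the volume: `M n` contains the box `(1,2)^E` and is in the box `(0,2]^E` -/
def TaskMeas : Prop := ∀ n : ℕ, MeasurableSet (M n) ∧ Convex ℝ (M n) ∧ 0 < volume (M n) ∧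
  volume (M n) < ⊤

/-! ### lower bound for the volume -/

/-- the pair `ij` is in `B` -/
def mem2 {n : ℕ} (B : Finset (E n)) (i j : Fin n) : Prop :=
  (∃ h : i < j, (⟨(i, j), h⟩ : E n) ∈ B) ∨ (∃ h : j < i, (⟨(j, i), h⟩ : E n) ∈ B)

open Classical in
/-- the pairs `ij` not in `B` with `ik`, `kj` in `B` for some `k` -/
def clo {n : ℕ} (B : Finset (E n)) : Finset (E n) :=
  Finset.univ.filter (fun e => e ∉ B ∧ ∃ k, mem2 B e.1.1 k ∧ mem2 B k e.1.2)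

/-- the boxes `x e ∈ [1-a,1+a)` (e ∈ B), `x e ∈ [1+a, 2-2a]` (e ∈ clo B), `x e ∈ [1+a, 2]` (else) are disjoint
for different `B` and contained in `M n`: a distance `> 2-2a` is not in `B ∪ clo B`, so one of the other two
sides of the triangle is `≥ 1+a`, both are `≥ 1-a` -/
def TaskBox : Prop := ∀ (n : ℕ) (a : ℝ), 0 < a → a ≤ 1 / 8 → volume (M n) < ⊤ →
  ∑ B : Finset (E n), (2 * a) ^ B.card * (1 - a) ^ (Fintype.card (E n) - B.card) *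
    ((1 - 3 * a) / (1 - a)) ^ (clo B).card ≤ (volume (M n)).toReal

/-- `|clo B| ≤ ∑_(e,k) 1[ik, kj ∈ B]`, `ik ≠ kj`; the sum of the weights of the `B` containing two given pairs is
`(2a)² (1+a)^(N-2)`; there are `N n ≤ n³/2` pairs `(e,k)` -/
def TaskCherry : Prop := ∀ (n : ℕ) (a : ℝ), 0 < a → a ≤ 1 / 8 →
  ∑ B : Finset (E n), (2 * a) ^ B.card * (1 - a) ^ (Fintype.card (E n) - B.card) * ((clo B).card : ℝ) ≤
    2 * a ^ 2 * (n : ℝ) ^ 3 * (1 + a) ^ Fintype.card (E n)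

/-- convexity of `c ↦ ρ^c` -/
def TaskJensen : Prop := ∀ (ι : Type) (s : Finset ι) (w : ι → ℝ) (c : ι → ℕ) (ρ K : ℝ), 0 < ρ → ρ ≤ 1 →
  (∀ i ∈ s, 0 ≤ w i) → 0 < ∑ i ∈ s, w i → ∑ i ∈ s, w i * (c i : ℝ) ≤ K * ∑ i ∈ s, w i →
  (∑ i ∈ s, w i) * ρ ^ K ≤ ∑ i ∈ s, w i * ρ ^ (c i)

/-- `a = 1/(8 √n)`: the sum of the weights is `(1+a)^N`, `N ≥ n²/3`, `log (1+a) ≥ a/2`,
`log ((1-3a)/(1-a)) ≥ -3.2 a`, so `log vol ≥ a n²/6 - 6.4 a³ n³` -/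
def TaskVol : Prop := TaskMeas → TaskBox → TaskCherry → TaskJensen → ∀ n : ℕ, 3 ≤ n →
  Real.exp (n * Real.sqrt n / 120) ≤ (volume (M n)).toReal

/-! ### marginals -/

/-- relabelling the points (a permutation of `Fin n` taking `e` to `e'`) preserves the measure and `M n` -/
def TaskSym : Prop := ∀ (n : ℕ) (e e' : E n) (g : ℝ → ℝ≥0∞), Measurable g →
  ∫⁻ x in M n, g (x e) = ∫⁻ x in M n, g (x e')

/-- the marginal is log-concave: Prekopa-Leindler, `Pool.Agent.TH264.MP.PL` theorem `pl` (copy of the file in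
outputs/live/Pool/Agent/TH264/MP/PL.lean), Fubini for one coordinate -/
def TaskMarg : Prop := TaskMeas → ∀ (n : ℕ) (e : E n), ∃ f : ℝ → ℝ, Measurable f ∧ (∀ t, 0 ≤ f t) ∧
  (∀ t, t ∉ Ioc (0 : ℝ) 2 → f t = 0) ∧ (∃ C, ∀ t, f t ≤ C) ∧
  (∀ s t l : ℝ, 0 < l → l < 1 → f s ^ l * f t ^ (1 - l) ≤ f (l * s + (1 - l) * t)) ∧
  ∀ g : ℝ → ℝ≥0∞, Measurable g → ∫⁻ x in M n, g (x e) = ∫⁻ t, g t * ENNReal.ofReal (f t)

/-- Gibbs: with `F x = ∏ f (x e)`: `∫_M F ≤ 1`, `log (F V) ≤ F V - 1` on `M` (a.e. `F > 0` there), integrate -/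
def TaskGibbs : Prop := ∀ (n : ℕ) (f : ℝ → ℝ) (V : ℝ), MeasurableSet (M n) → 0 < V →
  volume (M n) = ENNReal.ofReal V → Measurable f → (∀ t, 0 ≤ f t) → (∃ C, ∀ t, f t ≤ C) →
  (∀ t, t ∉ Ioc (0 : ℝ) 2 → f t = 0) → ∫ t, f t = 1 →
  (∀ (e : E n) (g : ℝ → ℝ≥0∞), Measurable g →
    ∫⁻ x in M n, g (x e) = ENNReal.ofReal V * ∫⁻ t, g t * ENNReal.ofReal (f t)) →
  Real.log V ≤ -(Fintype.card (E n) : ℝ) * ∫ t, f t * Real.log (f t)

/-! ### log-concave densities on `(0, 2]` -/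

structure LC (f : ℝ → ℝ) : Prop where
  meas : Measurable f
  nonneg : ∀ t, 0 ≤ f t
  supp : ∀ t, t ∉ Ioc (0 : ℝ) 2 → f t = 0
  bdd : ∃ C, ∀ t, f t ≤ C
  one : ∫ t, f t = 1
  lc : ∀ s t l : ℝ, 0 < l → l < 1 → f s ^ l * f t ^ (1 - l) ≤ f (l * s + (1 - l) * t)

/-- mass of `(0,1]` -/
def eps (f : ℝ → ℝ) : ℝ := ∫ t in Ioc (0 : ℝ) 1, f t

/-- entropy of a part: Jensen (or `p log (q/p) ≤ q - p` pointwise with the constant `q = m/L`) -/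
def TaskEntJ : Prop := ∀ (f : ℝ → ℝ) (a b m : ℝ), a < b → Measurable f → (∀ t, 0 ≤ f t) → (∃ C, ∀ t, f t ≤ C) →
  m = ∫ t in Ioc a b, f t → -∫ t in Ioc a b, f t * Real.log (f t) ≤ m * Real.log ((b - a) / m)

/-- `f (1 - y/2) ≥ √(f 1 f(1-y))`, so `∫_0^1 √(f 1 f(1-y)) dy ≤ 2 ε`, and `f (√(f1/f) - 1) ≥ f log(f1/f)/2`:
`∫ f log (f1/f) ≤ 2 ∫ f` -/
def TaskLeft : Prop := ∀ f : ℝ → ℝ, LC f → 0 < f 1 →
  -∫ t in Ioc (0 : ℝ) 1, f t * Real.log (f t) ≤ eps f * (Real.log (1 / f 1) + 2)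

/-- supporting line of the concave function `log f` at 1 -/
def TaskSuper : Prop := ∀ f : ℝ → ℝ, LC f → 0 < f 1 → ∃ s : ℝ, ∀ x, f x ≤ f 1 * Real.exp (s * (x - 1))

/-- `s > 0` by TaskSuper (otherwise the mass of `(1,2]` is `≤ 1/16`); `ε ≤ f1/s`; `y = log (1/(2 f1))/s < 1`
(otherwise `f ≤ 1/2` on `(1,2]`), `f ≤ 1/2` on `(1,1+y]`, with TaskEntJ on `(1,1+y]` and `(1+y,2]`:
`r - 1 - r log r ≤ -0.15` for `0 ≤ r ≤ 1/2` -/
def TaskRight : Prop := TaskSuper → TaskEntJ → ∀ f : ℝ → ℝ, LC f → 0 < f 1 → f 1 < 1 / 16 → eps f < 1 / 2 →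
  ∃ s : ℝ, 0 < s ∧ eps f ≤ f 1 / s ∧
    -∫ t in Ioc (1 : ℝ) 2, f t * Real.log (f t) ≤ eps f - 3 / 20 * Real.log (1 / (2 * f 1)) / s

/-- cases: `f 1 = 0` (then `f = 0` on `(0,1)` or on `(1,2]`); `ε ≥ 1/2` (entropy `≤ log 2`);
`f 1 ≥ 1/16` (TaskLeft and TaskEntJ on `(1,2]`); else TaskLeft and TaskRight: `f1 log (1/f1) ≤ 0.15 log (1/(2 f1))` -/
def TaskEnt6 : Prop := TaskEntJ → TaskLeft → TaskSuper → TaskRight → ∀ f : ℝ → ℝ, LC f →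
  -∫ t, f t * Real.log (f t) ≤ 6 * eps f

end

end Q126.RM
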