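import Pool.Agent.Q126.RM.Stmts

/-! MP_1c6531_pr: corrected statements (helper173): the case `eps f = 0` is separate. -/

namespace Q126.RM

open MeasureTheory Set
open scoped ENNReal

noncomputable section

/-- supporting line of the concave function `log f` at 1 -/
def TaskSuper3 : Prop := ∀ f : ℝ → ℝ, LC f → 0 < f 1 → 0 < eps f → eps f < 1 →
  ∃ s : ℝ, ∀ x, f x ≤ f 1 * Real.exp (s * (x - 1))

/-- as TaskRight, with the additional hypothesis `0 < eps f` -/
def TaskRight2 : Prop := TaskSuper3 → TaskEntJ → ∀ f : ℝ → ℝ, LC f → 0 < f 1 → f 1 < 1 / 16 →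
  0 < eps f → eps f < 1 / 2 →
  ∃ s : ℝ, 0 < s ∧ eps f ≤ f 1 / s ∧
    -∫ t in Ioc (1 : ℝ) 2, f t * Real.log (f t) ≤ eps f - 3 / 20 * Real.log (1 / (2 * f 1)) / s

/-- as TaskEnt6; new case `eps f = 0`: then `f = 0` a.e. on `(0,1]`, the entropy is `≤ 0` by TaskEntJ on `(1,2]`
with `m = 1` -/
def TaskEnt62 : Prop := TaskEntJ → TaskLeft → TaskSuper3 → TaskRight2 → ∀ f : ℝ → ℝ, LC f →
  -∫ t, f t * Real.log (f t) ≤ 6 * eps f

end

end Q126.RM
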