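import Pool.Agent.Q126.RM.Stmts

namespace Q126.RM

open MeasureTheory Set
open scoped ENNReal

namespace BoxAux

theorem mem2_symm {n : ℕ} {B : Finset (E n)} {i j : Fin n} (h : mem2 B i j) : mem2 B j i := by
  rcases h with h | h
  · exact Or.inr h
  · exact Or.inl h

theorem mem_clo {n : ℕ} (B : Finset (E n)) (e : E n) :
    e ∈ clo B ↔ e ∉ B ∧ ∃ k, mem2 B e.1.1 k ∧ mem2 B k e.1.2 := by
  classical
  unfold clo
  simp only [Finset.mem_filter, Finset.mem_univ, true_and]

open Classical in
/-- the sides of the boxes -/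
noncomputable def side {n : ℕ} (a : ℝ) (B : Finset (E n)) (e : E n) : Set ℝ :=
  if e ∈ B then Ico (1 - a) (1 + a) else if e ∈ clo B then Icc (1 + a) (2 - 2 * a) else Icc (1 + a) 2

open Classical in
/-- the lengths of the sides -/
noncomputable def len {n : ℕ} (a : ℝ) (B : Finset (E n)) (e : E n) : ℝ :=
  if e ∈ B then 2 * a else if e ∈ clo B then 1 - 3 * a else 1 - a

theorem side_ge {n : ℕ} {a : ℝ} (ha : 0 < a) {B : Finset (E n)} {e : E n} {t : ℝ} (h : t ∈ side a B e) :
    1 - a ≤ t := by
  unfold side at h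
  split_ifs at h
  · exact h.1
  · have := h.1; linarith
  · have := h.1; linarith

theorem side_ge' {n : ℕ} {a : ℝ} {B : Finset (E n)} {e : E n} {t : ℝ} (h : t ∈ side a B e)
    (he : e ∉ B) : 1 + a ≤ t := by
  unfold side at h
  rw [if_neg he] at h
  split_ifs at h
  · exact h.1
  · exact h.1

theorem side_lt {n : ℕ} {a : ℝ} {B : Finset (E n)} {e : E n} {t : ℝ} (h : t ∈ side a B e)
    (he : e ∈ B) : t < 1 + a := by
  unfold side at h
  rw [if_pos he] at h
  exact h.2

theorem side_le {n : ℕ} {a : ℝ} (ha : 0 < a) (ha' : a ≤ 1 / 8) {B : Finset (E n)} {e : E n} {t : ℝ}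
    (h : t ∈ side a B e) : t ≤ 2 := by
  unfold side at h
  split_ifs at h
  · have := h.2; linarith
  · have := h.2; linarith
  · exact h.2

theorem side_le' {n : ℕ} {a : ℝ} {B : Finset (E n)} {e : E n} {t : ℝ}
    (h : t ∈ side a B e) (hc : e ∈ clo B) : t ≤ 2 - 2 * a := by
  have he : e ∉ B := ((mem_clo B e).1 hc).1
  unfold side at h
  rw [if_neg he, if_pos hc] at h
  exact h.2

/-- a distance of two different points is the value at some pair -/
theorem D_pair {n : ℕ} (x : E n → ℝ) (B : Finset (E n)) (i j : Fin n) (hij : i ≠ j) :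
    ∃ e : E n, D x i j = x e ∧ (e ∈ B ↔ mem2 B i j) ∧
      (e ∈ clo B ↔ (e ∉ B ∧ ∃ k, mem2 B i k ∧ mem2 B k j)) := by
  rcases lt_or_gt_of_ne hij with h | h
  · refine ⟨⟨(i, j), h⟩, ?_, ?_, ?_⟩
    · unfold D; rw [dif_pos h]
    · unfold mem2
      constructor
      · intro hm; exact Or.inl ⟨h, hm⟩
      · rintro (⟨_, hm⟩ | ⟨h', _⟩)
        · exact hm
        · exact absurd h (not_lt.2 h'.le)
    · exact mem_clo B _
  · refine ⟨⟨(j, i), h⟩, ?_, ?_, ?_⟩
    · unfold D; rw [dif_neg (not_lt.2 h.le), dif_pos h]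
    · unfold mem2
      constructor
      · intro hm; exact Or.inr ⟨h, hm⟩
      · rintro (⟨h', _⟩ | ⟨_, hm⟩)
        · exact absurd h (not_lt.2 h'.le)
        · exact hm
    · rw [mem_clo]
      constructor
      · rintro ⟨h1, k, h2, h3⟩
        exact ⟨h1, k, mem2_symm h3, mem2_symm h2⟩
      · rintro ⟨h1, k, h2, h3⟩
        exact ⟨h1, k, mem2_symm h3, mem2_symm h2⟩

theorem box_sub {n : ℕ} (a : ℝ) (ha : 0 < a) (ha' : a ≤ 1 / 8) (B : Finset (E n)) :
    Set.pi univ (side a B) ⊆ M n := by
  intro x hx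
  have hx' : ∀ e, x e ∈ side a B e := fun e => hx e (mem_univ e)
  refine ⟨fun e => ⟨by have := side_ge ha (hx' e); linarith, side_le ha ha' (hx' e)⟩, ?_⟩
  intro i j k hij hik hjk
  obtain ⟨e, he, heB, hec⟩ := D_pair x B i j hij
  obtain ⟨f, hf, hfB, -⟩ := D_pair x B i k hik
  obtain ⟨g, hg, hgB, -⟩ := D_pair x B k j hjk.symm
  rw [he, hf, hg]
  have h1 := side_ge ha (hx' f)
  have h2 := side_ge ha (hx' g)
  by_cases h : x e ≤ 2 - 2 * a
  · linarith
  · have hnB : e ∉ B := by
      intro hm
      have := side_lt (hx' e) hm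
      apply h; linarith
    have hnc : e ∉ clo B := fun hm => h (side_le' (hx' e) hm)
    have h3 := side_le ha ha' (hx' e)
    by_cases hfm : f ∈ B
    · have hgm : g ∉ B := by
        intro hgm
        exact hnc (hec.2 ⟨hnB, k, hfB.1 hfm, hgB.1 hgm⟩)
      have := side_ge' (hx' g) hgm
      linarith
    · have := side_ge' (hx' f) hfm
      linarith

theorem box_disj {n : ℕ} (a : ℝ) : Pairwise (Function.onFun Disjoint
    (fun B : Finset (E n) => Set.pi univ (side a B))) := by
  intro B B' hne
  rw [Function.onFun, Set.disjoint_left]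
  intro x hx hx'
  apply hne
  ext e
  have h1 := hx e (mem_univ e)
  have h2 := hx' e (mem_univ e)
  constructor
  · intro he
    by_contra he'
    have := side_lt h1 he
    have := side_ge' h2 he'
    linarith
  · intro he
    by_contra he'
    have := side_lt h2 he
    have := side_ge' h1 he'
    linarith

theorem len_nonneg {n : ℕ} {a : ℝ} (ha : 0 < a) (ha' : a ≤ 1 / 8) (B : Finset (E n)) (e : E n) :
    0 ≤ len a B e := by
  unfold len
  split_ifs <;> linarith

theorem vol_side {n : ℕ} (a : ℝ) (B : Finset (E n)) (e : E n) :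
    volume (side a B e) = ENNReal.ofReal (len a B e) := by
  unfold side len
  split_ifs
  · rw [Real.volume_Ico]; congr 1; ring
  · rw [Real.volume_Icc]; congr 1; ring
  · rw [Real.volume_Icc]; congr 1; ring

theorem meas_side {n : ℕ} (a : ℝ) (B : Finset (E n)) (e : E n) : MeasurableSet (side a B e) := by
  unfold side
  split_ifs
  · exact measurableSet_Ico
  · exact measurableSet_Icc
  · exact measurableSet_Icc

theorem prod_len {n : ℕ} {a : ℝ} (ha' : a ≤ 1 / 8) (B : Finset (E n)) :
    ∏ e, len a B e = (2 * a) ^ B.card * (1 - a) ^ (Fintype.card (E n) - B.card) *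
      ((1 - 3 * a) / (1 - a)) ^ (clo B).card := by
  classical
  have h1 : ∀ e, len a B e = (if e ∈ B then 2 * a else 1 - a) *
      (if e ∈ clo B then (1 - 3 * a) / (1 - a) else 1) := by
    intro e
    unfold len
    have h0 : (1 : ℝ) - a ≠ 0 := by
      have : (0 : ℝ) < 1 - a := by linarith
      exact this.ne'
    by_cases he : e ∈ B
    · have : e ∉ clo B := fun h => ((mem_clo B e).1 h).1 he
      simp [he, this]
    · by_cases hc : e ∈ clo B
      · simp only [he, hc, if_true, if_false]
        field_simp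
      · simp [he, hc]
  rw [Finset.prod_congr rfl fun e _ => h1 e, Finset.prod_mul_distrib]
  congr 1
  · rw [Finset.prod_ite, Finset.prod_const, Finset.prod_const]
    congr 2
    · congr 1
      ext e; simp
    · rw [← Finset.card_univ, ← Finset.card_sdiff_of_subset (Finset.subset_univ B)]
      congr 1
      ext e; simp
  · rw [Finset.prod_ite_mem, Finset.univ_inter, Finset.prod_const]

end BoxAux

open BoxAux in
theorem Box : TaskBox := by
  intro n a ha ha' hfin
  rw [← ENNReal.ofReal_le_iff_le_toReal hfin.ne]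
  have hw : ∀ B : Finset (E n), (2 * a) ^ B.card * (1 - a) ^ (Fintype.card (E n) - B.card) *
      ((1 - 3 * a) / (1 - a)) ^ (clo B).card = ∏ e, len a B e := fun B => (prod_len ha' B).symm
  rw [Finset.sum_congr rfl fun B _ => hw B]
  rw [ENNReal.ofReal_sum_of_nonneg fun B _ => Finset.prod_nonneg fun e _ => len_nonneg ha ha' B e]
  have hv : ∀ B : Finset (E n), ENNReal.ofReal (∏ e, len a B e) = volume (Set.pi univ (side a B)) := by
    intro B
    rw [volume_pi_pi, ENNReal.ofReal_prod_of_nonneg fun e _ => len_nonneg ha ha' B e]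
    exact Finset.prod_congr rfl fun e _ => (vol_side a B e).symm
  rw [Finset.sum_congr rfl fun B _ => hv B]
  have hU : ∑ B : Finset (E n), volume (Set.pi univ (side a B)) =
      volume (⋃ B ∈ (Finset.univ : Finset (Finset (E n))), Set.pi univ (side a B)) := by
    rw [measure_biUnion_finset]
    · intro B _ B' _ hne
      exact box_disj a hne
    · intro B _
      exact MeasurableSet.univ_pi fun e => meas_side a B e
  rw [hU]
  refine measure_mono ?_
  intro x hx
  simp only [Finset.mem_univ, iUnion_true, mem_iUnion] at hx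
  obtain ⟨B, hB⟩ := hx
  exact box_sub a ha ha' B hB

end Q126.RM
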