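import Mathlib
import Pool.Agent.Q126.RM.Stmts

namespace Q126.RM

open Finset

namespace CherryAux

lemma card_E (n : ℕ) : 2 * Fintype.card (E n) ≤ n ^ 2 := by
  let f : E n ⊕ E n → Fin n × Fin n := Sum.elim (fun p => p.1) (fun p => p.1.swap)
  have hf : Function.Injective f := by
    rintro (p | p) (q | q) h
    · simp only [f, Sum.elim_inl] at h
      rw [Subtype.ext h]
    · simp only [f, Sum.elim_inl, Sum.elim_inr] at h
      have h1 := p.2
      have h2 := q.2
      rw [h] at h1
      simp only [Prod.fst_swap, Prod.snd_swap] at h1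
      exact absurd h1 (not_lt.2 h2.le)
    · simp only [f, Sum.elim_inl, Sum.elim_inr] at h
      have h1 := p.2
      have h2 := q.2
      rw [← h] at h2
      simp only [Prod.fst_swap, Prod.snd_swap] at h2
      exact absurd h2 (not_lt.2 h1.le)
    · simp only [f, Sum.elim_inr] at h
      rw [Subtype.ext (Prod.swap_injective h)]
  have := Fintype.card_le_of_injective f hf
  rw [Fintype.card_sum, Fintype.card_prod, Fintype.card_fin] at this
  nlinarith

lemma not_mem2_self {n : ℕ} (B : Finset (E n)) (i : Fin n) : ¬ mem2 B i i := by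
  rintro (⟨h, _⟩ | ⟨h, _⟩) <;> exact lt_irrefl _ h

/-- the pair of two different points -/
lemma exists_pair {n : ℕ} (i k : Fin n) (h : i ≠ k) : ∃ p : E n, (p.1 = (i, k) ∨ p.1 = (k, i)) ∧
    ∀ B : Finset (E n), mem2 B i k → p ∈ B := by
  rcases lt_or_gt_of_ne h with h1 | h1
  · refine ⟨⟨(i, k), h1⟩, Or.inl rfl, fun B hB => ?_⟩
    rcases hB with ⟨_, h2⟩ | ⟨h2, _⟩
    · exact h2
    · exact absurd h2 (not_lt.2 h1.le)
  · refine ⟨⟨(k, i), h1⟩, Or.inr rfl, fun B hB => ?_⟩
    rcases hB with ⟨h2, _⟩ | ⟨_, h2⟩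
    · exact absurd h2 (not_lt.2 (le_of_lt h1))
    · exact h2

lemma two_pairs {n : ℕ} (i j k : Fin n) (hij : i ≠ j) (hik : i ≠ k) (hkj : k ≠ j) :
    ∃ p q : E n, p ≠ q ∧ ∀ B : Finset (E n), mem2 B i k ∧ mem2 B k j → p ∈ B ∧ q ∈ B := by
  obtain ⟨p, hp, hp'⟩ := exists_pair i k hik
  obtain ⟨q, hq, hq'⟩ := exists_pair k j hkj
  refine ⟨p, q, ?_, fun B hB => ⟨hp' B hB.1, hq' B hB.2⟩⟩
  rintro rfl
  rcases hp with hp | hp <;> rcases hq with hq | hq <;>
    · rw [hp, Prod.mk.injEq] at hq
      first
        | exact hik hq.1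
        | exact hij hq.1
        | exact hij hq.2
        | exact hkj hq.1
        | exact hkj hq.2
        | exact hik hq.2
        | exact hij hq.1.symm
        | exact hij hq.2.symm

/-- the sum of the weights of the `B` containing two given pairs -/
lemma weight {ι : Type*} [Fintype ι] [DecidableEq ι] (p q : ι) (hpq : p ≠ q) (a : ℝ) (ha : 0 < a) :
    ∑ B : Finset ι, (2 * a) ^ B.card * (1 - a) ^ (Fintype.card ι - B.card) *
      (if p ∈ B ∧ q ∈ B then 1 else 0) ≤ 4 * a ^ 2 * (1 + a) ^ Fintype.card ι := by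
  have h1 := Finset.prod_add (fun _ : ι => 2 * a) (fun i : ι => if i = p ∨ i = q then 0 else 1 - a)
    Finset.univ
  have h2 : ∑ B : Finset ι, (2 * a) ^ B.card * (1 - a) ^ (Fintype.card ι - B.card) *
      (if p ∈ B ∧ q ∈ B then 1 else 0) = ∑ t ∈ (Finset.univ : Finset ι).powerset,
        (∏ i ∈ t, 2 * a) * ∏ i ∈ Finset.univ \ t, (if i = p ∨ i = q then 0 else 1 - a) := by
    rw [Finset.powerset_univ]
    refine Finset.sum_congr rfl (fun B _ => ?_)
    rw [Finset.prod_const]
    by_cases h : p ∈ B ∧ q ∈ B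
    · rw [if_pos h, mul_one]
      congr 1
      rw [Finset.prod_congr rfl (g := fun _ => 1 - a)]
      · rw [Finset.prod_const, ← Finset.compl_eq_univ_sdiff, Finset.card_compl]
      · intro i hi
        rw [Finset.mem_sdiff] at hi
        rw [if_neg]
        rintro (rfl | rfl)
        · exact hi.2 h.1
        · exact hi.2 h.2
    · rw [if_neg h, mul_zero]
      rw [not_and_or] at h
      symm
      rcases h with h | h
      · rw [Finset.prod_eq_zero (i := p)]
        · ring
        · simpa using h
        · simp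
      · rw [Finset.prod_eq_zero (i := q)]
        · ring
        · simpa using h
        · simp
  rw [h2, ← h1]
  have h3 : ∏ i : ι, (2 * a + if i = p ∨ i = q then 0 else 1 - a)
      ≤ ∏ i : ι, (1 + a) * (if i ∈ ({p, q} : Finset ι) then 2 * a else 1) := by
    apply Finset.prod_le_prod
    · intro i _
      split_ifs
      · linarith
      · have : (2 * a + (1 - a)) = 1 + a := by ring
        rw [this]
        linarith
    · intro i _
      simp only [Finset.mem_insert, Finset.mem_singleton]
      split_ifs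
      · nlinarith
      · linarith
  refine h3.trans (le_of_eq ?_)
  rw [Finset.prod_mul_distrib, Finset.prod_const, Finset.card_univ, Finset.prod_ite_mem,
    Finset.univ_inter, Finset.prod_const, Finset.card_pair hpq]
  ring

end CherryAux

open CherryAux Classical in
theorem Cherry : TaskCherry := by
  intro n a ha ha8
  have hw : ∀ B : Finset (E n), 0 ≤ (2 * a) ^ B.card * (1 - a) ^ (Fintype.card (E n) - B.card) := by
    intro B
    apply mul_nonneg
    · positivity
    · apply pow_nonneg
      linarith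
  have hclo : ∀ B : Finset (E n), ((clo B).card : ℝ) ≤ ∑ e : E n, ∑ k : Fin n,
      (if mem2 B e.1.1 k ∧ mem2 B k e.1.2 then (1 : ℝ) else 0) := by
    intro B
    unfold clo
    rw [Finset.card_filter]
    push_cast
    apply Finset.sum_le_sum
    intro e _
    split_ifs with h
    · obtain ⟨_, k, hk⟩ := h
      have := Finset.single_le_sum (f := fun k : Fin n =>
        (if mem2 B e.1.1 k ∧ mem2 B k e.1.2 then (1 : ℝ) else 0)) (s := Finset.univ)
        (fun k _ => by positivity) (Finset.mem_univ k)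
      simp only [if_pos hk] at this
      exact this
    · apply Finset.sum_nonneg
      intro k _
      positivity
  have hek : ∀ (e : E n) (k : Fin n), ∑ B : Finset (E n),
      (2 * a) ^ B.card * (1 - a) ^ (Fintype.card (E n) - B.card) *
        (if mem2 B e.1.1 k ∧ mem2 B k e.1.2 then (1 : ℝ) else 0) ≤
        4 * a ^ 2 * (1 + a) ^ Fintype.card (E n) := by
    intro e k
    by_cases h1 : e.1.1 = k
    · rw [Finset.sum_eq_zero]
      · positivity
      · intro B _
        rw [if_neg, mul_zero]
        rintro ⟨h2, _⟩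
        rw [h1] at h2
        exact not_mem2_self B k h2
    by_cases h2 : k = e.1.2
    · rw [Finset.sum_eq_zero]
      · positivity
      · intro B _
        rw [if_neg, mul_zero]
        rintro ⟨_, h3⟩
        rw [← h2] at h3
        exact not_mem2_self B k h3
    obtain ⟨p, q, hpq, hB⟩ := two_pairs e.1.1 e.1.2 k e.2.ne h1 h2
    refine le_trans ?_ (weight p q hpq a ha)
    apply Finset.sum_le_sum
    intro B _
    apply mul_le_mul_of_nonneg_left _ (hw B)
    by_cases h : mem2 B e.1.1 k ∧ mem2 B k e.1.2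
    · rw [if_pos h, if_pos (hB B h)]
    · rw [if_neg h]
      positivity
  calc ∑ B : Finset (E n), (2 * a) ^ B.card * (1 - a) ^ (Fintype.card (E n) - B.card) *
        ((clo B).card : ℝ)
      ≤ ∑ B : Finset (E n), (2 * a) ^ B.card * (1 - a) ^ (Fintype.card (E n) - B.card) *
        ∑ e : E n, ∑ k : Fin n, (if mem2 B e.1.1 k ∧ mem2 B k e.1.2 then (1 : ℝ) else 0) := by
        apply Finset.sum_le_sum
        intro B _
        exact mul_le_mul_of_nonneg_left (hclo B) (hw B)
    _ = ∑ e : E n, ∑ k : Fin n, ∑ B : Finset (E n),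
        (2 * a) ^ B.card * (1 - a) ^ (Fintype.card (E n) - B.card) *
        (if mem2 B e.1.1 k ∧ mem2 B k e.1.2 then (1 : ℝ) else 0) := by
        simp_rw [Finset.mul_sum]
        rw [Finset.sum_comm]
        refine Finset.sum_congr rfl (fun e _ => ?_)
        rw [Finset.sum_comm]
    _ ≤ ∑ e : E n, ∑ k : Fin n, 4 * a ^ 2 * (1 + a) ^ Fintype.card (E n) :=
        Finset.sum_le_sum (fun e _ => Finset.sum_le_sum (fun k _ => hek e k))
    _ = (Fintype.card (E n) : ℝ) * n * (4 * a ^ 2 * (1 + a) ^ Fintype.card (E n)) := by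
        rw [Finset.sum_const, Finset.sum_const, Finset.card_univ, Finset.card_univ,
          Fintype.card_fin, nsmul_eq_mul, nsmul_eq_mul]
        ring
    _ ≤ 2 * a ^ 2 * (n : ℝ) ^ 3 * (1 + a) ^ Fintype.card (E n) := by
        have h1 : 2 * (Fintype.card (E n) : ℝ) ≤ (n : ℝ) ^ 2 := by exact_mod_cast card_E n
        have h2 : 0 ≤ (n : ℝ) * (2 * a ^ 2 * (1 + a) ^ Fintype.card (E n)) := by positivity
        have h3 := mul_le_mul_of_nonneg_right h1 h2
        calc (Fintype.card (E n) : ℝ) * n * (4 * a ^ 2 * (1 + a) ^ Fintype.card (E n))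
            = 2 * (Fintype.card (E n) : ℝ) * ((n : ℝ) * (2 * a ^ 2 * (1 + a) ^ Fintype.card (E n))) := by
              ring
          _ ≤ (n : ℝ) ^ 2 * ((n : ℝ) * (2 * a ^ 2 * (1 + a) ^ Fintype.card (E n))) := h3
          _ = _ := by ring

end Q126.RM
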