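import Pool.Agent.Q126.RM.Stmts

/-! Blueprint for MP_1c6531_pr: the entropy of a log-concave density on `(0, 2]`. -/

namespace Q126.RM

open MeasureTheory Set
open scoped ENNReal

private lemma e6_abs (x : ℝ) (hx : 0 ≤ x) : |x * Real.log x| ≤ 1 + x ^ 2 := by
  rcases hx.eq_or_lt with h | h
  · rw [← h]; simp
  · have h1 := Real.log_le_sub_one_of_pos h
    have h2 : 1 - x⁻¹ ≤ Real.log x := Real.one_sub_inv_le_log_of_pos h
    have h3 : x * (1 - x⁻¹) = x - 1 := by field_simp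
    have h4 := mul_le_mul_of_nonneg_left h2 h.le
    have h5 := mul_le_mul_of_nonneg_left h1 h.le
    rw [h3] at h4
    rw [abs_le]
    constructor
    · nlinarith
    · nlinarith

private lemma e6_int (f : ℝ → ℝ) (hf : Measurable f) (h0 : ∀ t, 0 ≤ f t)
    (hC : ∃ C, ∀ t, f t ≤ C) (a b : ℝ) :
    IntegrableOn (fun t => f t * Real.log (f t)) (Ioc a b) := by
  obtain ⟨C, hC⟩ := hC
  refine Measure.integrableOn_of_bounded (M := 1 + C ^ 2) (by simp) ?_ ?_
  · exact (hf.mul (Real.measurable_log.comp hf)).aestronglyMeasurable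
  · refine Filter.Eventually.of_forall fun t => ?_
    rw [Real.norm_eq_abs]
    have := e6_abs (f t) (h0 t)
    have h1 : f t ^ 2 ≤ C ^ 2 := pow_le_pow_left₀ (h0 t) (hC t) 2
    linarith

private lemma e6_int' (f : ℝ → ℝ) (hf : Measurable f) (h0 : ∀ t, 0 ≤ f t)
    (hC : ∃ C, ∀ t, f t ≤ C) (a b : ℝ) : IntegrableOn f (Ioc a b) := by
  obtain ⟨C, hC⟩ := hC
  refine Measure.integrableOn_of_bounded (M := C) (by simp) hf.aestronglyMeasurable ?_
  refine Filter.Eventually.of_forall fun t => ?_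
  rw [Real.norm_eq_abs, abs_of_nonneg (h0 t)]
  exact hC t

private lemma e6_split (g : ℝ → ℝ) (hs : ∀ t, t ∉ Ioc (0 : ℝ) 2 → g t = 0)
    (h1 : IntegrableOn g (Ioc 0 1)) (h2 : IntegrableOn g (Ioc 1 2)) :
    ∫ t, g t = (∫ t in Ioc (0 : ℝ) 1, g t) + ∫ t in Ioc (1 : ℝ) 2, g t := by
  rw [← setIntegral_eq_integral_of_forall_compl_eq_zero (s := Ioc (0 : ℝ) 2) hs,
    ← Ioc_union_Ioc_eq_Ioc (by norm_num : (0 : ℝ) ≤ 1) (by norm_num : (1 : ℝ) ≤ 2)]
  exact setIntegral_union (Set.disjoint_left.2 fun x hx hx' => not_lt.2 hx.2 hx'.1)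
    measurableSet_Ioc h1 h2

private lemma e6_ml (m : ℝ) (hm : 0 ≤ m) : m * Real.log ((2 - 1) / m) ≤ 1 - m := by
  rcases hm.eq_or_lt with h | h
  · rw [← h]; simp
  · have h2 : 1 - m⁻¹ ≤ Real.log m := Real.one_sub_inv_le_log_of_pos h
    have h3 : m * (1 - m⁻¹) = m - 1 := by field_simp
    have h4 := mul_le_mul_of_nonneg_left h2 h.le
    rw [h3] at h4
    have h5 : Real.log ((2 - 1) / m) = -Real.log m := by
      rw [show (2 - 1 : ℝ) / m = m⁻¹ by norm_num, Real.log_inv]
    rw [h5]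
    linarith

theorem Ent6 : TaskEnt6 := by
  intro hJ hL hS hR f hf
  have hi1 := e6_int f hf.meas hf.nonneg hf.bdd 0 1
  have hi2 := e6_int f hf.meas hf.nonneg hf.bdd 1 2
  have hsupp : ∀ t, t ∉ Ioc (0 : ℝ) 2 → f t * Real.log (f t) = 0 := by
    intro t ht
    rw [hf.supp t ht]; simp
  have hsp := e6_split (fun t => f t * Real.log (f t)) hsupp hi1 hi2
  have hm := e6_split f hf.supp (e6_int' f hf.meas hf.nonneg hf.bdd 0 1)
    (e6_int' f hf.meas hf.nonneg hf.bdd 1 2)
  rw [hf.one] at hm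
  have hε : eps f = ∫ t in Ioc (0 : ℝ) 1, f t := rfl
  rw [← hε] at hm
  have hε0 : 0 ≤ eps f := by
    rw [hε]
    exact integral_nonneg hf.nonneg
  have hq0 : 0 ≤ ∫ t in Ioc (1 : ℝ) 2, f t := integral_nonneg hf.nonneg
  have hm2 : 1 - eps f = ∫ t in Ioc (1 : ℝ) 2, f t := by linarith
  have hJ2 := hJ f 1 2 (1 - eps f) (by norm_num) hf.meas hf.nonneg hf.bdd hm2
  have hR2 : -∫ t in Ioc (1 : ℝ) 2, f t * Real.log (f t) ≤ eps f := by
    have := e6_ml (1 - eps f) (by rw [hm2]; exact hq0)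
    linarith
  have hl2 := Real.log_two_lt_d9
  have hl2' := Real.log_two_gt_d9
  by_cases hb : 1 / 2 ≤ eps f
  · have h02 : ∫ t in Ioc (0 : ℝ) 2, f t = 1 := by
      rw [setIntegral_eq_integral_of_forall_compl_eq_zero hf.supp, hf.one]
    have hJ0 := hJ f 0 2 1 (by norm_num) hf.meas hf.nonneg hf.bdd h02.symm
    rw [setIntegral_eq_integral_of_forall_compl_eq_zero hsupp] at hJ0
    have : Real.log ((2 - 0 : ℝ) / 1) = Real.log 2 := by norm_num
    rw [this] at hJ0
    linarith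
  push Not at hb
  by_cases h1 : f 1 = 0
  · have hz : ∀ t ∈ Ioc (0 : ℝ) 1, f t = 0 := by
      intro s hs
      by_contra hne
      have hs1 : s < 1 := by
        rcases lt_or_eq_of_le hs.2 with h | h
        · exact h
        · rw [h] at hne
          exact absurd h1 hne
      have hsp' : 0 < f s := lt_of_le_of_ne (hf.nonneg s) (Ne.symm hne)
      have hz' : ∀ t ∈ Ioc (1 : ℝ) 2, f t = 0 := by
        intro t ht
        by_contra hne'
        have htp : 0 < f t := lt_of_le_of_ne (hf.nonneg t) (Ne.symm hne')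
        have hst : 0 < t - s := by linarith [ht.1]
        have hl := hf.lc s t ((t - 1) / (t - s)) (div_pos (by linarith [ht.1]) hst)
          (by rw [div_lt_one hst]; linarith)
        have he : (t - 1) / (t - s) * s + (1 - (t - 1) / (t - s)) * t = 1 := by
          field_simp
          ring
        rw [he, h1] at hl
        have := mul_pos (Real.rpow_pos_of_pos hsp' ((t - 1) / (t - s)))
          (Real.rpow_pos_of_pos htp (1 - (t - 1) / (t - s)))
        linarith
      have h0 : ∫ t in Ioc (1 : ℝ) 2, f t = 0 := setIntegral_eq_zero_of_forall_eq_zero hz'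
      linarith
    have h0 : ∫ t in Ioc (0 : ℝ) 1, f t * Real.log (f t) = 0 :=
      setIntegral_eq_zero_of_forall_eq_zero fun t ht => by rw [hz t ht]; simp
    rw [hsp, h0]
    linarith
  have h1p : 0 < f 1 := lt_of_le_of_ne (hf.nonneg 1) (Ne.symm h1)
  have hL1 := hL f hf h1p
  have hlinv : Real.log (1 / f 1) = -Real.log (f 1) := by
    rw [one_div, Real.log_inv]
  have h16 : Real.log (1 / 16) = -4 * Real.log 2 := by
    rw [show (1 / 16 : ℝ) = (2 ^ 4)⁻¹ by norm_num, Real.log_inv, Real.log_pow]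
    push_cast; ring
  by_cases hf1 : 1 / 16 ≤ f 1
  · have hlg : Real.log (1 / 16) ≤ Real.log (f 1) := Real.log_le_log (by norm_num) hf1
    have hb2 : Real.log (1 / f 1) + 2 ≤ 5 := by
      rw [hlinv]; linarith
    have := mul_le_mul_of_nonneg_left hb2 hε0
    rw [hsp]
    linarith
  push Not at hf1
  obtain ⟨s, hs, hes, hR3⟩ := hR hS hJ f hf h1p hf1 hb
  have hlg : Real.log (f 1) < Real.log (1 / 16) := Real.log_lt_log h1p hf1
  set Lg := Real.log (1 / f 1) with hLg
  have hLg1 : 4 * Real.log 2 ≤ Lg := by linarith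
  have h2f : Real.log (1 / (2 * f 1)) = Lg - Real.log 2 := by
    rw [one_div, Real.log_inv, Real.log_mul (by norm_num) h1, hlinv]
    ring
  rw [h2f] at hR3
  have hkey : f 1 * Lg ≤ 3 / 20 * (Lg - Real.log 2) := by nlinarith
  have hk2 : eps f * Lg ≤ f 1 / s * Lg := mul_le_mul_of_nonneg_right hes (by linarith)
  have hk3 : f 1 / s * Lg ≤ 3 / 20 * (Lg - Real.log 2) / s := by
    rw [div_mul_eq_mul_div]
    exact div_le_div_of_nonneg_right hkey hs.le
  rw [hsp]
  have e1 : eps f * (Lg + 2) = eps f * Lg + 2 * eps f := by ring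
  rw [e1] at hL1
  linarith

end Q126.RM
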