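import Pool.Agent.Q126.RM.Stmts

/-!
# Task EntJ
-/

set_option autoImplicit false

namespace Q126.RM

open MeasureTheory Set

theorem taskEntJ : TaskEntJ := by
  intro f a b m hab hf hf0 hC hm
  obtain ⟨C, hC⟩ := hC
  have hvol : volume (Ioc a b) ≠ ⊤ := by
    rw [Real.volume_Ioc]
    exact ENNReal.ofReal_ne_top
  have hint : IntegrableOn f (Ioc a b) := by
    refine Measure.integrableOn_of_bounded (M := C) hvol hf.aestronglyMeasurable
      (Filter.Eventually.of_forall fun t => ?_)
    rw [Real.norm_eq_abs, abs_of_nonneg (hf0 t)]
    exact hC t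
  obtain ⟨K, hK⟩ := (isCompact_Icc (a := (0 : ℝ)) (b := C)).exists_bound_of_continuousOn
    Real.continuous_mul_log.continuousOn
  have hint2 : IntegrableOn (fun t => f t * Real.log (f t)) (Ioc a b) := by
    refine Measure.integrableOn_of_bounded (M := K) hvol
      (hf.mul (Real.measurable_log.comp hf)).aestronglyMeasurable
      (Filter.Eventually.of_forall fun t => hK (f t) ⟨hf0 t, hC t⟩)
  have hm0 : 0 ≤ m := by
    rw [hm]
    exact integral_nonneg hf0
  rcases hm0.eq_or_lt with h0 | hpos
  · -- mass zero
    have h1 : f =ᵐ[volume.restrict (Ioc a b)] 0 := by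
      rw [← integral_eq_zero_iff_of_nonneg hf0 hint, ← hm, h0]
    have h2 : ∫ t in Ioc a b, f t * Real.log (f t) = 0 := by
      rw [integral_congr_ae (g := fun _ => (0 : ℝ))]
      · simp
      · filter_upwards [h1] with t ht
        rw [ht]
        simp
    rw [h2, ← h0]
    simp
  · have hba : 0 < b - a := by linarith
    have hq : 0 < m / (b - a) := div_pos hpos hba
    have hpt : ∀ t, -(f t * Real.log (f t)) ≤
        m / (b - a) - f t - f t * Real.log (m / (b - a)) := by
      intro t
      rcases (hf0 t).eq_or_lt with h | h
      · rw [← h]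
        simpa using hq.le
      · have h1 := Real.log_le_sub_one_of_pos (div_pos hq h)
        rw [Real.log_div hq.ne' h.ne'] at h1
        have h2 := mul_le_mul_of_nonneg_left h1 h.le
        have h3 : f t * (m / (b - a) / f t - 1) = m / (b - a) - f t := by
          field_simp
        rw [h3] at h2
        nlinarith
    have hint3 : IntegrableOn (fun t => m / (b - a) - f t - f t * Real.log (m / (b - a)))
        (Ioc a b) := by
      refine ((integrableOn_const hvol).sub hint).sub (hint.mul_const _)
    have h4 := integral_mono hint2.neg hint3 hpt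
    have h5 : ∫ t in Ioc a b, (m / (b - a) - f t - f t * Real.log (m / (b - a))) =
        m / (b - a) * (b - a) - m - m * Real.log (m / (b - a)) := by
      have i1 : Integrable (fun _ : ℝ => m / (b - a)) (volume.restrict (Ioc a b)) :=
        integrableOn_const hvol
      have i2 : Integrable (fun t : ℝ => m / (b - a) - f t) (volume.restrict (Ioc a b)) :=
        i1.sub hint
      have i3 : Integrable (fun t : ℝ => f t * Real.log (m / (b - a)))
        (volume.restrict (Ioc a b)) := hint.mul_const _
      have i4 : ∫ _ in Ioc a b, m / (b - a) = m / (b - a) * (b - a) := by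
        rw [setIntegral_const, Real.volume_real_Ioc_of_le hab.le, smul_eq_mul, mul_comm]
      rw [integral_sub i2 i3, integral_sub i1 hint, integral_mul_const, ← hm, i4]
    have h6 : ∫ t in Ioc a b, -(f t * Real.log (f t)) = -∫ t in Ioc a b, f t * Real.log (f t) :=
      integral_neg _
    have h7 : Real.log ((b - a) / m) = -Real.log (m / (b - a)) := by
      rw [← Real.log_inv, inv_div]
    have h8 : m / (b - a) * (b - a) = m := div_mul_cancel₀ _ hba.ne'
    rw [h7]
    have h9 : (∫ t in Ioc a b, -(f t * Real.log (f t))) ≤
        m / (b - a) * (b - a) - m - m * Real.log (m / (b - a)) := by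
      rw [← h5]
      exact h4
    rw [h6, h8] at h9
    linarith

end Q126.RM
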