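import Pool.Agent.Q126.RM.Stmts

set_option autoImplicit false

namespace Q126.RM

open MeasureTheory Set
open scoped ENNReal

theorem Gibbs : TaskGibbs := by
  intro n f V hM hV hvol hf hf0 hfC hsupp hint hmarg
  obtain ⟨C, hC⟩ := hfC
  have hfi : Integrable f := by
    by_contra h
    rw [integral_undef h] at hint
    exact zero_ne_one hint
  -- the law of a coordinate
  have hmap : ∀ e : E n, Measure.map (fun x : E n → ℝ => x e) (volume.restrict (M n)) =
      volume.withDensity (fun t => ENNReal.ofReal (V * f t)) := by
    intro e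
    ext s hs
    rw [Measure.map_apply (measurable_pi_apply e) hs, withDensity_apply _ hs]
    have h1 := hmarg e (s.indicator 1) (measurable_one.indicator hs)
    have h2 : ∫⁻ x in M n, s.indicator 1 (x e) = (volume.restrict (M n)) ((fun x : E n → ℝ => x e) ⁻¹' s) := by
      rw [← lintegral_indicator_one ((measurable_pi_apply e) hs)]
      rfl
    rw [← h2, h1, ← lintegral_const_mul _ (by fun_prop), ← lintegral_indicator hs]
    refine lintegral_congr fun t => ?_
    by_cases ht : t ∈ s
    · rw [indicator_of_mem ht, indicator_of_mem ht, Pi.one_apply, one_mul, ENNReal.ofReal_mul hV.le]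
    · rw [indicator_of_notMem ht, indicator_of_notMem ht, zero_mul, mul_zero]
  -- `f log f` is integrable
  have hflog : Integrable (fun t => f t * Real.log (f t)) := by
    have hCpos : 0 ≤ C := (hf0 0).trans (hC 0)
    obtain ⟨B, hB⟩ : ∃ B, ∀ y ∈ Icc (0 : ℝ) C, ‖y * Real.log y‖ ≤ B := by
      have := (isCompact_Icc (a := (0 : ℝ)) (b := C)).exists_bound_of_continuousOn
        Real.continuous_mul_log.continuousOn
      exact this
    have h1 : Integrable ((Ioc (0 : ℝ) 2).indicator fun _ => B) := by
      rw [integrable_indicator_iff measurableSet_Ioc]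
      exact integrableOn_const (by simp)
    refine h1.mono' ((hf.mul (Real.measurable_log.comp hf)).aestronglyMeasurable) ?_
    refine Filter.Eventually.of_forall fun t => ?_
    by_cases ht : t ∈ Ioc (0 : ℝ) 2
    · rw [indicator_of_mem ht]
      exact hB _ ⟨hf0 t, hC t⟩
    · rw [indicator_of_notMem ht, hsupp t ht]
      simp
  have hmeasd : Measurable fun t => ENNReal.ofReal (V * f t) := by fun_prop
  have htop : ∀ᵐ t : ℝ, ENNReal.ofReal (V * f t) < ⊤ := Filter.Eventually.of_forall fun t => ENNReal.ofReal_lt_top
  have hlogm : Measurable fun t => Real.log (f t) := Real.measurable_log.comp hf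
  have htr : ∀ t, (ENNReal.ofReal (V * f t)).toReal = V * f t := fun t =>
    ENNReal.toReal_ofReal (mul_nonneg hV.le (hf0 t))
  have hI1 : ∀ e : E n, IntegrableOn (fun x : E n → ℝ => Real.log (f (x e))) (M n) := by
    intro e
    have h1 : Integrable (fun t => Real.log (f t)) (Measure.map (fun x : E n → ℝ => x e) (volume.restrict (M n))) := by
      rw [hmap e, integrable_withDensity_iff_integrable_smul' hmeasd htop]
      simp only [htr, smul_eq_mul]
      simpa only [mul_assoc] using hflog.const_mul V
    exact (integrable_map_measure hlogm.aestronglyMeasurable (measurable_pi_apply e).aemeasurable).1 h1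
  have hI2 : ∀ e : E n, ∫ x in M n, Real.log (f (x e)) = V * ∫ t, f t * Real.log (f t) := by
    intro e
    have h1 : ∫ t, Real.log (f t) ∂(Measure.map (fun x : E n → ℝ => x e) (volume.restrict (M n))) =
        ∫ x in M n, Real.log (f (x e)) :=
      integral_map (measurable_pi_apply e).aemeasurable hlogm.aestronglyMeasurable
    rw [← h1, hmap e, integral_withDensity_eq_integral_toReal_smul hmeasd htop]
    simp only [htr, smul_eq_mul]
    rw [← integral_const_mul]
    refine integral_congr_ae (Filter.Eventually.of_forall fun t => ?_)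
    simp only
    ring
  -- the product
  have hFi : Integrable (fun x : E n → ℝ => ∏ e, f (x e)) := Integrable.fintype_prod fun _ => hfi
  have hF1 : ∫ x : E n → ℝ, ∏ e, f (x e) = 1 := by
    rw [integral_fintype_prod_volume_eq_prod]
    simp [hint]
  have hF0 : ∀ x : E n → ℝ, 0 ≤ ∏ e, f (x e) := fun x => Finset.prod_nonneg fun e _ => hf0 _
  have hF2 : ∫ x in M n, ∏ e, f (x e) ≤ 1 := by
    rw [← hF1]
    exact setIntegral_le_integral hFi (Filter.Eventually.of_forall hF0)
  -- almost everywhere positive
  have hpos : ∀ᵐ x : E n → ℝ ∂(volume.restrict (M n)), ∀ e, 0 < f (x e) := by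
    rw [ae_all_iff]
    intro e
    have hs : MeasurableSet {t | f t = 0} := hf (measurableSet_singleton 0)
    have h1 : (Measure.map (fun x : E n → ℝ => x e) (volume.restrict (M n))) {t | f t = 0} = 0 := by
      rw [hmap e, withDensity_apply _ hs]
      refine (setLIntegral_congr_fun hs ?_).trans (by simp : ∫⁻ _ in {t | f t = 0}, (0 : ℝ≥0∞) = 0)
      intro t ht
      have ht' : f t = 0 := ht
      simp [ht']
    rw [Measure.map_apply (measurable_pi_apply e) hs] at h1
    rw [ae_iff]
    refine measure_mono_null ?_ h1
    intro x hx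
    have hx' : ¬ 0 < f (x e) := hx
    show f (x e) = 0
    exact le_antisymm (not_lt.1 hx') (hf0 _)
  haveI : IsFiniteMeasure (volume.restrict (M n)) := ⟨by
    rw [Measure.restrict_apply_univ, hvol]
    exact ENNReal.ofReal_lt_top⟩
  have hreal : (volume.restrict (M n)).real univ = V := by
    rw [measureReal_def, Measure.restrict_apply_univ, hvol, ENNReal.toReal_ofReal hV.le]
  have hsumI : Integrable (fun x : E n → ℝ => ∑ e, Real.log (f (x e))) (volume.restrict (M n)) :=
    integrable_finset_sum _ fun e _ => hI1 e
  have key : ∫ x in M n, ((∑ e, Real.log (f (x e))) + Real.log V) ≤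
      ∫ x in M n, (V * (∏ e, f (x e)) - 1) := by
    refine integral_mono_ae (hsumI.add (integrable_const _)) ((hFi.integrableOn.const_mul V).sub (integrable_const _)) ?_
    filter_upwards [hpos] with x hx
    have hP : 0 < ∏ e, f (x e) := Finset.prod_pos fun e _ => hx e
    have h1 := Real.log_le_sub_one_of_pos (mul_pos hV hP)
    rw [Real.log_mul hV.ne' hP.ne', Real.log_prod fun e _ => (hx e).ne'] at h1
    show (∑ e, Real.log (f (x e))) + Real.log V ≤ V * (∏ e, f (x e)) - 1
    linarith
  rw [integral_add hsumI (integrable_const _), integral_finset_sum _ fun e _ => hI1 e,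
    integral_sub (hFi.integrableOn.const_mul V) (integrable_const _), integral_const_mul,
    integral_const, integral_const, hreal] at key
  simp only [hI2, Finset.sum_const, Finset.card_univ, nsmul_eq_mul, smul_eq_mul, mul_one] at key
  have h3 : V * ((Fintype.card (E n) : ℝ) * (∫ t, f t * Real.log (f t)) + Real.log V) ≤ V * 0 := by
    have h4 : V * ∫ x in M n, ∏ e, f (x e) ≤ V * 1 := mul_le_mul_of_nonneg_left hF2 hV.le
    linarith
  have h5 := le_of_mul_le_mul_left h3 hV
  linarith

end Q126.RM
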