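import Pool.Agent.Q126.RM.Stmts
set_option autoImplicit false

namespace Q126.RM

theorem taskJensen_aux (ρ K : ℝ) (c : ℕ) (h0 : 0 < ρ) :
    ρ ^ K * (1 + ((c : ℝ) - K) * Real.log ρ) ≤ ρ ^ c := by
  have h1 : ρ ^ c = ρ ^ K * Real.exp (((c : ℝ) - K) * Real.log ρ) := by
    rw [← Real.rpow_natCast ρ c, Real.rpow_def_of_pos h0, Real.rpow_def_of_pos h0, ← Real.exp_add]
    congr 1
    ring
  rw [h1]
  have h2 : 0 < ρ ^ K := Real.rpow_pos_of_pos h0 K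
  have h3 := Real.add_one_le_exp (((c : ℝ) - K) * Real.log ρ)
  apply mul_le_mul_of_nonneg_left _ h2.le
  linarith

theorem taskJensen : TaskJensen := by
  intro ι s w c ρ K h0 h1 hw hW hK
  have hl : Real.log ρ ≤ 0 := Real.log_nonpos h0.le h1
  have hρ : 0 < ρ ^ K := Real.rpow_pos_of_pos h0 K
  have e1 : ∑ i ∈ s, w i * (ρ ^ K * (1 + ((c i : ℝ) - K) * Real.log ρ)) ≤
      ∑ i ∈ s, w i * ρ ^ (c i) :=
    Finset.sum_le_sum fun i hi => mul_le_mul_of_nonneg_left (taskJensen_aux ρ K (c i) h0) (hw i hi)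
  have e2 : ∑ i ∈ s, w i * (ρ ^ K * (1 + ((c i : ℝ) - K) * Real.log ρ)) =
      ρ ^ K * (∑ i ∈ s, w i) +
        ρ ^ K * Real.log ρ * (∑ i ∈ s, w i * (c i : ℝ) - K * ∑ i ∈ s, w i) := by
    rw [Finset.mul_sum, Finset.mul_sum, ← Finset.sum_sub_distrib, Finset.mul_sum,
      ← Finset.sum_add_distrib]
    refine Finset.sum_congr rfl fun i _ => ?_
    ring
  have e3 : 0 ≤ ρ ^ K * Real.log ρ * (∑ i ∈ s, w i * (c i : ℝ) - K * ∑ i ∈ s, w i) := by
    apply mul_nonneg_of_nonpos_of_nonpos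
    · exact mul_nonpos_of_nonneg_of_nonpos hρ.le hl
    · linarith
  have e4 : (∑ i ∈ s, w i) * ρ ^ K = ρ ^ K * ∑ i ∈ s, w i := mul_comm _ _
  rw [e4]
  linarith

theorem Jensen : TaskJensen := taskJensen

end Q126.RM
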