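import Pool.Agent.Q126.RM.Stmts
set_option autoImplicit false

namespace Q126.RM

open MeasureTheory Set

lemma tl_int (g : ℝ → ℝ) (K : ℝ) (hm : Measurable g) (hb : ∀ t, |g t| ≤ K) (a b : ℝ) :
    IntegrableOn g (Ioc a b) volume := by
  refine Measure.integrableOn_of_bounded (M := K) (by simp) hm.aestronglyMeasurable ?_
  exact Filter.Eventually.of_forall fun t => by
    rw [Real.norm_eq_abs]
    exact hb t

theorem Left : TaskLeft := by
  intro f hf h1
  obtain ⟨C, hC⟩ := hf.bdd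
  have hC0 : 0 ≤ C := (hf.nonneg 1).trans (hC 1)
  -- boundedness of `x log x`
  obtain ⟨K, hK⟩ : ∃ K : ℝ, ∀ x ∈ Icc (0 : ℝ) C, ‖x * Real.log x‖ ≤ K :=
    (isCompact_Icc).exists_bound_of_continuousOn Real.continuous_mul_log.continuousOn
  have i1 : IntegrableOn (fun t => f t * Real.log (f t)) (Ioc 0 1) volume :=
    tl_int _ K (hf.meas.mul (Real.measurable_log.comp hf.meas))
      (fun t => hK (f t) ⟨hf.nonneg t, hC t⟩) 0 1
  have i2 : IntegrableOn f (Ioc 0 1) volume :=
    tl_int _ C hf.meas (fun t => by rw [abs_of_nonneg (hf.nonneg t)]; exact hC t) 0 1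
  have i3 : IntegrableOn (fun t => Real.sqrt (f 1 * f t)) (Ioc 0 1) volume := by
    refine tl_int _ (Real.sqrt (f 1 * C)) (Real.continuous_sqrt.measurable.comp
      (measurable_const.mul hf.meas)) (fun t => ?_) 0 1
    show |Real.sqrt (f 1 * f t)| ≤ _
    rw [abs_of_nonneg (Real.sqrt_nonneg _)]
    exact Real.sqrt_le_sqrt (mul_le_mul_of_nonneg_left (hC t) h1.le)
  have i4 : IntegrableOn (fun t => f (1 / 2 * t + 1 / 2)) (Ioc 0 1) volume :=
    tl_int _ C (hf.meas.comp (by fun_prop))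
      (fun t => by
        show |f (1 / 2 * t + 1 / 2)| ≤ C
        rw [abs_of_nonneg (hf.nonneg _)]
        exact hC _) 0 1
  -- the midpoint inequality
  have hmid : ∀ t : ℝ, Real.sqrt (f 1 * f t) ≤ f (1 / 2 * t + 1 / 2) := by
    intro t
    have h := hf.lc 1 t (1 / 2) (by norm_num) (by norm_num)
    have e1 : (1 : ℝ) - 1 / 2 = 1 / 2 := by norm_num
    rw [e1, ← Real.mul_rpow h1.le (hf.nonneg t), ← Real.sqrt_eq_rpow] at h
    have e2 : (1 : ℝ) / 2 * 1 + 1 / 2 * t = 1 / 2 * t + 1 / 2 := by ring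
    rw [e2] at h
    exact h
  have hsqrt : ∫ t in Ioc (0 : ℝ) 1, Real.sqrt (f 1 * f t) ≤ 2 * eps f := by
    have s1 : ∫ t in Ioc (0 : ℝ) 1, Real.sqrt (f 1 * f t) ≤
        ∫ t in Ioc (0 : ℝ) 1, f (1 / 2 * t + 1 / 2) :=
      setIntegral_mono i3 i4 hmid
    have s2 : ∫ t in Ioc (0 : ℝ) 1, f (1 / 2 * t + 1 / 2) = 2 * ∫ t in Ioc (1 / 2 : ℝ) 1, f t := by
      rw [← intervalIntegral.integral_of_le (by norm_num : (0 : ℝ) ≤ 1),
        ← intervalIntegral.integral_of_le (by norm_num : (1 / 2 : ℝ) ≤ 1),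
        intervalIntegral.integral_comp_mul_add f (by norm_num : (1 / 2 : ℝ) ≠ 0) (1 / 2)]
      norm_num
    have s3 : ∫ t in Ioc (1 / 2 : ℝ) 1, f t ≤ eps f := by
      unfold eps
      refine setIntegral_mono_set i2 (Filter.Eventually.of_forall fun t => hf.nonneg t) ?_
      exact (Ioc_subset_Ioc_left (by norm_num)).eventuallyLE
    linarith
  -- the pointwise inequality
  have hpt : ∀ t : ℝ, -(f t * Real.log (f t)) ≤
      2 * Real.sqrt (f 1 * f t) - 2 * f t + f t * Real.log (1 / f 1) := by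
    intro t
    rcases (hf.nonneg t).eq_or_lt with h0 | h0
    · rw [← h0]
      simp
    · have hx : 0 < f 1 / f t := div_pos h1 h0
      have l1 : Real.log (Real.sqrt (f 1 / f t)) ≤ Real.sqrt (f 1 / f t) - 1 :=
        Real.log_le_sub_one_of_pos (Real.sqrt_pos.2 hx)
      rw [Real.log_sqrt hx.le, Real.log_div h1.ne' h0.ne'] at l1
      have l2 : f t * Real.sqrt (f 1 / f t) = Real.sqrt (f 1 * f t) := by
        rw [Real.sqrt_div h1.le, Real.sqrt_mul h1.le]
        have : f t = Real.sqrt (f t) * Real.sqrt (f t) := (Real.mul_self_sqrt h0.le).symm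
        have hs : Real.sqrt (f t) ≠ 0 := (Real.sqrt_pos.2 h0).ne'
        field_simp
        rw [Real.sq_sqrt h0.le]
      have l3 := mul_le_mul_of_nonneg_left l1 h0.le
      rw [one_div, Real.log_inv]
      have l4 : f t * (Real.sqrt (f 1 / f t) - 1) = Real.sqrt (f 1 * f t) - f t := by
        rw [mul_sub, l2, mul_one]
      rw [l4] at l3
      linarith
  have i5 : IntegrableOn (fun t => 2 * Real.sqrt (f 1 * f t)) (Ioc 0 1) volume := i3.const_mul 2
  have i6 : IntegrableOn (fun t => 2 * f t) (Ioc 0 1) volume := i2.const_mul 2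
  have i7 : IntegrableOn (fun t => 2 * Real.sqrt (f 1 * f t) - 2 * f t) (Ioc 0 1) volume :=
    i5.sub i6
  have i8 : IntegrableOn (fun t => f t * Real.log (1 / f 1)) (Ioc 0 1) volume := i2.mul_const _
  have hmono : ∫ t in Ioc (0 : ℝ) 1, -(f t * Real.log (f t)) ≤
      ∫ t in Ioc (0 : ℝ) 1, (2 * Real.sqrt (f 1 * f t) - 2 * f t + f t * Real.log (1 / f 1)) :=
    setIntegral_mono i1.neg (i7.add i8) hpt
  have e1 : ∫ t in Ioc (0 : ℝ) 1,
      (2 * Real.sqrt (f 1 * f t) - 2 * f t + f t * Real.log (1 / f 1)) =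
      2 * (∫ t in Ioc (0 : ℝ) 1, Real.sqrt (f 1 * f t)) - 2 * eps f +
        eps f * Real.log (1 / f 1) := by
    rw [integral_add i7 i8, integral_sub i5 i6, integral_const_mul, integral_const_mul,
      integral_mul_const]
    rfl
  rw [integral_neg, e1] at hmono
  have : 2 * (∫ t in Ioc (0 : ℝ) 1, Real.sqrt (f 1 * f t)) ≤ 2 * (2 * eps f) := by linarith
  linarith

end Q126.RM
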