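import Pool.Agent.Q126.RM.Stmts
import Pool.Agent.TH264.MP.PL

/-! MP_1c6531_pr, blueprint of helper126: `TaskMarg` (by helper232). -/

set_option autoImplicit false

namespace Q126.RM

open MeasureTheory Set
open scoped ENNReal

namespace MargAux

open Pool.Agent.TH264.MP

variable {n k : ℕ}

/-- the indicator of `M n` in the reindexed coordinates, with the first coordinate split off -/
noncomputable def F (φ : E n ≃ Fin (k + 1)) (z : Fin (k + 1) → ℝ) : ℝ≥0∞ :=
  (M n).indicator (fun _ => (1 : ℝ≥0∞)) (fun i => z (φ i))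

theorem psi_meas (φ : E n ≃ Fin (k + 1)) :
    Measurable (fun (z : Fin (k + 1) → ℝ) (i : E n) => z (φ i)) :=
  measurable_pi_lambda _ fun i => measurable_pi_apply (φ i)

theorem F_meas (hM : MeasurableSet (M n)) (φ : E n ≃ Fin (k + 1)) : Measurable (F φ) :=
  (measurable_const.indicator hM).comp (psi_meas φ)

theorem psi_mp (φ : E n ≃ Fin (k + 1)) :
    MeasurePreserving (fun (z : Fin (k + 1) → ℝ) (i : E n) => z (φ i)) volume volume := by
  have h := volume_measurePreserving_piCongrLeft (fun _ : E n => ℝ) φ.symm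
  have h2 : (fun (z : Fin (k + 1) → ℝ) (i : E n) => z (φ i)) =
      ⇑(MeasurableEquiv.piCongrLeft (fun _ : E n => ℝ) φ.symm) := by
    funext z i
    have := MeasurableEquiv.piCongrLeft_apply_apply (β := fun _ : E n => ℝ) φ.symm z (φ i)
    rw [Equiv.symm_apply_apply] at this
    exact this.symm
  rw [h2]
  exact h

/-- the marginal -/
noncomputable def m (φ : E n ≃ Fin (k + 1)) (t : ℝ) : ℝ≥0∞ := ∫⁻ w, F φ ((ee k).symm (t, w))

theorem slice_meas (hM : MeasurableSet (M n)) (φ : E n ≃ Fin (k + 1)) (t : ℝ) :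
    Measurable (fun w : Fin k → ℝ => F φ ((ee k).symm (t, w))) :=
  ((F_meas hM φ).comp (ee k).symm.measurable).comp measurable_prodMk_left

theorem m_meas (hM : MeasurableSet (M n)) (φ : E n ≃ Fin (k + 1)) : Measurable (m φ) := by
  have h : Measurable fun p : ℝ × (Fin k → ℝ) => F φ ((ee k).symm p) :=
    (F_meas hM φ).comp (ee k).symm.measurable
  exact h.lintegral_prod_right

theorem F_zero_or_one (φ : E n ≃ Fin (k + 1)) (z : Fin (k + 1) → ℝ) :
    (F φ z = 1 ∧ (fun i => z (φ i)) ∈ M n) ∨ F φ z = 0 := by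
  by_cases h : (fun i => z (φ i)) ∈ M n
  · exact Or.inl ⟨by unfold F; rw [indicator_of_mem h], h⟩
  · exact Or.inr (by unfold F; rw [indicator_of_notMem h])

theorem coord (φ : E n ≃ Fin (k + 1)) (z : Fin (k + 1) → ℝ) (h : (fun i => z (φ i)) ∈ M n)
    (j : Fin (k + 1)) : 0 < z j ∧ z j ≤ 2 := by
  have := h.1 (φ.symm j)
  simpa using this

theorem m_le (φ : E n ≃ Fin (k + 1)) (t : ℝ) : m φ t ≤ ENNReal.ofReal (2 ^ k) := by
  have h1 : ∀ w : Fin k → ℝ, F φ ((ee k).symm (t, w)) ≤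
      (Set.pi univ fun _ : Fin k => Ioc (0 : ℝ) 2).indicator (fun _ => (1 : ℝ≥0∞)) w := by
    intro w
    rcases F_zero_or_one φ ((ee k).symm (t, w)) with ⟨h, h'⟩ | h
    · rw [h, indicator_of_mem]
      intro j _
      have := coord φ _ h' j.succ
      rw [ee_symm_succ] at this
      exact this
    · rw [h]
      exact zero_le
  refine (lintegral_mono h1).trans ?_
  rw [lintegral_indicator (MeasurableSet.univ_pi fun _ => measurableSet_Ioc), lintegral_const,
    one_mul, Measure.restrict_apply_univ, Real.volume_pi_Ioc]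
  simp

theorem m_out (φ : E n ≃ Fin (k + 1)) (t : ℝ) (ht : t ∉ Ioc (0 : ℝ) 2) : m φ t = 0 := by
  unfold m
  have : ∀ w : Fin k → ℝ, F φ ((ee k).symm (t, w)) = 0 := by
    intro w
    rcases F_zero_or_one φ ((ee k).symm (t, w)) with ⟨_, h'⟩ | h
    · have := coord φ _ h' 0
      rw [ee_symm_zero] at this
      exact absurd this ht
    · exact h
  simp only [this, lintegral_zero]

theorem m_log (hM : MeasurableSet (M n)) (hc : Convex ℝ (M n)) (φ : E n ≃ Fin (k + 1)) (s t l : ℝ)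
    (hl : 0 < l) (hl1 : l < 1) : m φ s ^ l * m φ t ^ (1 - l) ≤ m φ (l * s + (1 - l) * t) := by
  refine pl k l hl hl1 _ _ _ (slice_meas hM φ s) (slice_meas hM φ t) (slice_meas hM φ _) ?_
  intro x y
  rw [← ee_comb]
  rcases F_zero_or_one φ ((ee k).symm (s, x)) with ⟨h1, h1'⟩ | h1
  · rcases F_zero_or_one φ ((ee k).symm (t, y)) with ⟨h2, h2'⟩ | h2
    · have h3 : (fun i => (l • (ee k).symm (s, x) + (1 - l) • (ee k).symm (t, y)) (φ i)) ∈ M n := by
        have := hc h1' h2' hl.le (by linarith : (0 : ℝ) ≤ 1 - l) (by ring)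
        exact this
      rw [h1, h2, ENNReal.one_rpow, ENNReal.one_rpow, one_mul]
      unfold F
      rw [indicator_of_mem h3]
    · rw [h2, ENNReal.zero_rpow_of_pos (by linarith), mul_zero]
      exact zero_le
  · rw [h1, ENNReal.zero_rpow_of_pos hl, zero_mul]
    exact zero_le

theorem m_int (hM : MeasurableSet (M n)) (φ : E n ≃ Fin (k + 1)) (e : E n) (he : φ e = 0)
    (g : ℝ → ℝ≥0∞) (hg : Measurable g) : ∫⁻ x in M n, g (x e) = ∫⁻ t, g t * m φ t := by
  have h1 : ∫⁻ x in M n, g (x e) =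
      ∫⁻ x, (M n).indicator (fun _ => (1 : ℝ≥0∞)) x * g (x e) := by
    rw [← lintegral_indicator hM]
    refine lintegral_congr fun x => ?_
    by_cases h : x ∈ M n
    · rw [indicator_of_mem h, indicator_of_mem h, one_mul]
    · rw [indicator_of_notMem h, indicator_of_notMem h, zero_mul]
  have hmeas : Measurable fun x : E n → ℝ => (M n).indicator (fun _ => (1 : ℝ≥0∞)) x * g (x e) :=
    (measurable_const.indicator hM).mul (hg.comp (measurable_pi_apply e))
  rw [h1, ← (psi_mp φ).lintegral_comp hmeas]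
  have hmeas2 : Measurable fun z : Fin (k + 1) → ℝ => F φ z * g (z 0) :=
    (F_meas hM φ).mul (hg.comp (measurable_pi_apply 0))
  have h2 : ∫⁻ z : Fin (k + 1) → ℝ, (M n).indicator (fun _ => (1 : ℝ≥0∞)) (fun i => z (φ i)) *
      g (z (φ e)) = ∫⁻ z : Fin (k + 1) → ℝ, F φ z * g (z 0) := by
    rw [he]
    rfl
  rw [h2, lint k _ hmeas2]
  refine lintegral_congr fun t => ?_
  have h3 : ∀ w : Fin k → ℝ, F φ ((ee k).symm (t, w)) * g ((ee k).symm (t, w) 0) =
      F φ ((ee k).symm (t, w)) * g t := by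
    intro w
    rw [ee_symm_zero]
  simp only [h3]
  rw [lintegral_mul_const _ (slice_meas hM φ t), mul_comm]
  rfl

end MargAux

open MargAux in
theorem Marg : TaskMarg := by
  classical
  intro hT n e
  obtain ⟨hM, hc, -, -⟩ := hT n
  obtain ⟨k, hk⟩ : ∃ k, Fintype.card (E n) = k + 1 :=
    ⟨Fintype.card (E n) - 1, by have := Fintype.card_pos_iff.mpr ⟨e⟩; omega⟩
  -- a numbering with `e` in the place `0`
  obtain ⟨φ, he⟩ : ∃ φ : E n ≃ Fin (k + 1), φ e = 0 := by
    let φ₀ : E n ≃ Fin (k + 1) := Fintype.equivFinOfCardEq hk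
    refine ⟨φ₀.trans (Equiv.swap (φ₀ e) 0), ?_⟩
    simp
  have hfin : ∀ t, m φ t ≠ ⊤ := fun t => ((m_le φ t).trans_lt ENNReal.ofReal_lt_top).ne
  refine ⟨fun t => (m φ t).toReal, (m_meas hM φ).ennreal_toReal, fun t => ENNReal.toReal_nonneg,
    ?_, ⟨2 ^ k, ?_⟩, ?_, ?_⟩
  · intro t ht
    show (m φ t).toReal = 0
    rw [m_out φ t ht, ENNReal.toReal_zero]
  · intro t
    exact ENNReal.toReal_le_of_le_ofReal (by positivity) (m_le φ t)
  · intro s t l hl hl1
    show (m φ s).toReal ^ l * (m φ t).toReal ^ (1 - l) ≤ (m φ (l * s + (1 - l) * t)).toReal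
    rw [ENNReal.toReal_rpow, ENNReal.toReal_rpow, ← ENNReal.toReal_mul]
    exact ENNReal.toReal_mono (hfin _) (m_log hM hc φ s t l hl hl1)
  · intro g hg
    rw [m_int hM φ e he g hg]
    refine lintegral_congr fun t => ?_
    rw [ENNReal.ofReal_toReal (hfin t)]

end Q126.RM
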