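import Pool.Agent.Q126.RM.Stmts

/-! `TaskMeas`: the set of the metrics is measurable, convex, of positive finite volume. -/

namespace Q126.RM

open MeasureTheory Set
open scoped ENNReal

private theorem meas_D {n : ℕ} (i j : Fin n) : Measurable (fun x : E n → ℝ => D x i j) := by
  unfold D
  by_cases h : i < j
  · simp only [h, dif_pos]
    exact measurable_pi_apply _
  · by_cases h' : j < i
    · simp only [h, h', dif_pos, dif_neg, not_false_iff]
      exact measurable_pi_apply _
    · simp only [h, h', dif_neg, not_false_iff]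
      exact measurable_const

private theorem D_comb {n : ℕ} (x y : E n → ℝ) (a b : ℝ) (i j : Fin n) :
    D (a • x + b • y) i j = a * D x i j + b * D y i j := by
  unfold D
  by_cases h : i < j
  · simp [h]
  · by_cases h' : j < i
    · simp [h, h']
    · simp [h, h']

private theorem D_ge {n : ℕ} (x : E n → ℝ) (c : ℝ) (hx : ∀ e, c ≤ x e) (i j : Fin n) (hij : i ≠ j) :
    c ≤ D x i j := by
  unfold D
  rcases lt_or_gt_of_ne hij with h | h
  · rw [dif_pos h]
    exact hx _
  · rw [dif_neg (not_lt.2 h.le), dif_pos h]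
    exact hx _

private theorem D_le {n : ℕ} (x : E n → ℝ) (c : ℝ) (hx : ∀ e, x e ≤ c) (i j : Fin n) (hij : i ≠ j) :
    D x i j ≤ c := by
  unfold D
  rcases lt_or_gt_of_ne hij with h | h
  · rw [dif_pos h]
    exact hx _
  · rw [dif_neg (not_lt.2 h.le), dif_pos h]
    exact hx _

theorem Meas : TaskMeas := by
  intro n
  refine ⟨?_, ?_, ?_, ?_⟩
  · have h : M n = (⋂ e : E n, {x : E n → ℝ | 0 < x e ∧ x e ≤ 2}) ∩
        ⋂ i : Fin n, ⋂ j : Fin n, ⋂ k : Fin n, ⋂ _ : i ≠ j, ⋂ _ : i ≠ k, ⋂ _ : j ≠ k,
          {x : E n → ℝ | D x i j ≤ D x i k + D x k j} := by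
      ext x
      simp only [M, mem_setOf_eq, mem_inter_iff, mem_iInter]
    rw [h]
    refine MeasurableSet.inter (MeasurableSet.iInter fun e => ?_) ?_
    · exact (measurableSet_lt measurable_const (measurable_pi_apply e)).inter
        (measurableSet_le (measurable_pi_apply e) measurable_const)
    · refine MeasurableSet.iInter fun i => MeasurableSet.iInter fun j => MeasurableSet.iInter
        fun k => MeasurableSet.iInter fun _ => MeasurableSet.iInter fun _ =>
        MeasurableSet.iInter fun _ => ?_
      exact measurableSet_le (meas_D i j) ((meas_D i k).add (meas_D k j))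
  · intro x hx y hy a b ha hb hab
    refine ⟨fun e => ⟨?_, ?_⟩, fun i j k h1 h2 h3 => ?_⟩
    · have h1 := (hx.1 e).1
      have h2 := (hy.1 e).1
      show 0 < a * x e + b * y e
      rcases ha.eq_or_lt with h | h
      · rw [← h] at hab ⊢
        have : b = 1 := by linarith
        rw [this]
        linarith
      · have := mul_pos h h1
        have := mul_nonneg hb h2.le
        linarith
    · have h1 := (hx.1 e).2
      have h2 := (hy.1 e).2
      show a * x e + b * y e ≤ 2
      have := mul_le_mul_of_nonneg_left h1 ha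
      have := mul_le_mul_of_nonneg_left h2 hb
      have : a * 2 + b * 2 = 2 := by rw [← add_mul, hab, one_mul]
      linarith
    · rw [D_comb, D_comb, D_comb]
      have e1 := mul_le_mul_of_nonneg_left (hx.2 i j k h1 h2 h3) ha
      have e2 := mul_le_mul_of_nonneg_left (hy.2 i j k h1 h2 h3) hb
      linarith
  · have hsub : Set.pi univ (fun _ : E n => Ioo (1 : ℝ) 2) ⊆ M n := by
      intro x hx
      have hx' : ∀ e, 1 < x e ∧ x e < 2 := fun e => hx e (mem_univ e)
      refine ⟨fun e => ⟨by linarith [(hx' e).1], (hx' e).2.le⟩, fun i j k h1 h2 h3 => ?_⟩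
      have e1 := D_le x 2 (fun e => (hx' e).2.le) i j h1
      have e2 := D_ge x 1 (fun e => (hx' e).1.le) i k h2
      have e3 := D_ge x 1 (fun e => (hx' e).1.le) k j h3.symm
      linarith
    refine lt_of_lt_of_le ?_ (measure_mono hsub)
    rw [volume_pi_pi]
    simp only [Real.volume_Ioo]
    rw [pos_iff_ne_zero]
    refine Finset.prod_ne_zero_iff.2 fun e _ => ?_
    norm_num
  · have hsub : M n ⊆ Set.pi univ (fun _ : E n => Ioc (0 : ℝ) 2) := by
      intro x hx e _
      exact hx.1 e
    refine lt_of_le_of_lt (measure_mono hsub) ?_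
    rw [volume_pi_pi]
    refine ENNReal.prod_lt_top fun e _ => ?_
    simp only [Real.volume_Ioc]
    exact ENNReal.ofReal_lt_top

end Q126.RM
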