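import Pool.Agent.Q126.RM.Stmts

namespace Q126.RM

open MeasureTheory Set
open scoped ENNReal

namespace RightAux

lemma intOn {g : ℝ → ℝ} (hg : Measurable g) {C : ℝ} (hC : ∀ t, |g t| ≤ C) (a b : ℝ) :
    IntegrableOn g (Ioc a b) := by
  refine Measure.integrableOn_of_bounded (M := C) (by simp) hg.aestronglyMeasurable ?_
  exact Filter.Eventually.of_forall fun t => by rw [Real.norm_eq_abs]; exact hC t

lemma split {g : ℝ → ℝ} {a b c : ℝ} (hab : a ≤ b) (hbc : b ≤ c) (h1 : IntegrableOn g (Ioc a b))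
    (h2 : IntegrableOn g (Ioc b c)) :
    ∫ t in Ioc a c, g t = (∫ t in Ioc a b, g t) + ∫ t in Ioc b c, g t := by
  rw [← Ioc_union_Ioc_eq_Ioc hab hbc]
  refine setIntegral_union ?_ measurableSet_Ioc h1 h2
  rw [Set.disjoint_left]
  intro x hx hx'
  exact absurd hx.2 (not_le.2 hx'.1)

lemma le_const {g : ℝ → ℝ} {a b c : ℝ} (hab : a ≤ b) (h1 : IntegrableOn g (Ioc a b))
    (h2 : ∀ t ∈ Ioc a b, g t ≤ c) : ∫ t in Ioc a b, g t ≤ c * (b - a) := by
  have h3 : ∫ t in Ioc a b, g t ≤ ∫ _ in Ioc a b, c :=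
    setIntegral_mono_on h1 (integrableOn_const (by simp)) measurableSet_Ioc h2
  rw [setIntegral_const, smul_eq_mul, Real.volume_real_Ioc_of_le hab] at h3
  linarith

end RightAux

open RightAux

theorem Right : TaskRight := by
  intro hSuper hEntJ f hf h1 h16 heps
  obtain ⟨s, hs⟩ := hSuper f hf h1
  obtain ⟨C, hC⟩ := hf.bdd
  have hfabs : ∀ t, |f t| ≤ C := fun t => by rw [abs_of_nonneg (hf.nonneg t)]; exact hC t
  have hfi : ∀ a b, IntegrableOn f (Ioc a b) := intOn hf.meas hfabs
  have hgm : Measurable fun t => f t * Real.log (f t) := hf.meas.mul (Real.measurable_log.comp hf.meas)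
  obtain ⟨K, hK⟩ := (isCompact_Icc (a := (0 : ℝ)) (b := C)).exists_bound_of_continuousOn
    (Real.continuous_mul_log.continuousOn)
  have hgi : ∀ a b, IntegrableOn (fun t => f t * Real.log (f t)) (Ioc a b) := by
    refine intOn hgm (C := K) fun t => ?_
    have := hK (f t) ⟨hf.nonneg t, hC t⟩
    rwa [Real.norm_eq_abs] at this
  have htot : eps f + ∫ t in Ioc (1 : ℝ) 2, f t = 1 := by
    have h2 : ∫ t in Ioc (0 : ℝ) 2, f t = 1 := by
      rw [setIntegral_eq_integral_of_forall_compl_eq_zero fun x hx => hf.supp x hx]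
      exact hf.one
    rw [split zero_le_one one_le_two (hfi _ _) (hfi _ _)] at h2
    exact h2
  have hmass : 1 / 2 < ∫ t in Ioc (1 : ℝ) 2, f t := by linarith
  have hexp : ∀ {x c : ℝ}, s * (x - 1) ≤ c → f x ≤ f 1 * Real.exp c := fun {x c} h =>
    le_trans (hs x) (mul_le_mul_of_nonneg_left (Real.exp_le_exp.2 h) h1.le)
  have hspos : 0 < s := by
    by_contra hcon
    push Not at hcon
    have h2 : ∫ t in Ioc (1 : ℝ) 2, f t ≤ f 1 * (2 - 1) := by
      refine le_const one_le_two (hfi _ _) fun t ht => ?_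
      have h3 := hexp (x := t) (c := 0) (mul_nonpos_of_nonpos_of_nonneg hcon (by linarith [ht.1]))
      rwa [Real.exp_zero, mul_one] at h3
    linarith
  set L : ℝ := Real.log (1 / (2 * f 1)) with hL
  have hexpL : f 1 * Real.exp L = 1 / 2 := by
    rw [hL, Real.exp_log (by positivity)]
    field_simp
  have hLpos : 0 < L := by
    refine Real.log_pos ?_
    rw [lt_div_iff₀ (by positivity)]
    linarith
  refine ⟨s, hspos, ?_, ?_⟩
  · have h2 : eps f ≤ ∫ t in Ioc (0 : ℝ) 1, f 1 * Real.exp (s * (t - 1)) := by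
      refine setIntegral_mono_on (hfi _ _) ?_ measurableSet_Ioc fun t _ => hs t
      refine Continuous.integrableOn_Ioc ?_
      fun_prop
    have h3 : ∫ t in (0 : ℝ)..1, f 1 * Real.exp (s * (t - 1)) =
        f 1 / s * Real.exp (s * (1 - 1)) - f 1 / s * Real.exp (s * (0 - 1)) := by
      refine intervalIntegral.integral_eq_sub_of_hasDerivAt (f := fun t => f 1 / s * Real.exp (s * (t - 1)))
        (fun t _ => ?_) ?_
      · have h4 : HasDerivAt (fun t : ℝ => s * (t - 1)) (s * 1) t :=
          ((hasDerivAt_id t).sub_const 1).const_mul s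
        have h5 := (h4.exp).const_mul (f 1 / s)
        have h7 : f 1 / s * (Real.exp (s * (t - 1)) * (s * 1)) = f 1 * Real.exp (s * (t - 1)) := by
          have hs0 : s ≠ 0 := hspos.ne'
          rw [mul_one, div_mul_eq_mul_div, div_eq_iff hs0]
          ring
        rw [h7] at h5
        exact h5
      · refine Continuous.intervalIntegrable ?_ _ _
        fun_prop
    rw [intervalIntegral.integral_of_le zero_le_one] at h3
    rw [h3, sub_self, mul_zero, Real.exp_zero, mul_one] at h2
    have h6 : 0 ≤ f 1 / s * Real.exp (s * (0 - 1)) := by positivity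
    linarith
  · set y : ℝ := L / s with hy
    have hypos : 0 < y := div_pos hLpos hspos
    have hsy : s * y = L := by
      rw [hy]
      field_simp
    have hylt : y < 1 := by
      by_contra hcon
      push Not at hcon
      have hsL : s ≤ L := by
        rw [← hsy]
        nlinarith
      have h2 : ∫ t in Ioc (1 : ℝ) 2, f t ≤ 1 / 2 * (2 - 1) := by
        refine le_const one_le_two (hfi _ _) fun t ht => ?_
        rw [← hexpL]
        refine hexp ?_
        nlinarith [ht.1, ht.2]
      linarith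
    obtain ⟨m₁, hm₁⟩ : ∃ m, m = ∫ t in Ioc (1 : ℝ) (1 + y), f t := ⟨_, rfl⟩
    obtain ⟨m₂, hm₂⟩ : ∃ m, m = ∫ t in Ioc (1 + y) 2, f t := ⟨_, rfl⟩
    have hsum : eps f + (m₁ + m₂) = 1 := by
      rw [hm₁, hm₂, ← split (by linarith) (by linarith) (hfi _ _) (hfi _ _)]
      exact htot
    have hm₁0 : 0 ≤ m₁ := by
      rw [hm₁]
      exact setIntegral_nonneg measurableSet_Ioc fun t _ => hf.nonneg t
    have hm₂0 : 0 ≤ m₂ := by
      rw [hm₂]
      exact setIntegral_nonneg measurableSet_Ioc fun t _ => hf.nonneg t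
    have hm₁y : m₁ ≤ 1 / 2 * y := by
      have h2 : ∫ t in Ioc (1 : ℝ) (1 + y), f t ≤ 1 / 2 * (1 + y - 1) := by
        refine le_const (by linarith) (hfi _ _) fun t ht => ?_
        rw [← hexpL]
        refine hexp ?_
        rw [← hsy]
        have := ht.2
        nlinarith
      rw [hm₁]
      linarith
    have hE1 := hEntJ f 1 (1 + y) m₁ (by linarith) hf.meas hf.nonneg ⟨C, hC⟩ hm₁
    have hE2 := hEntJ f (1 + y) 2 m₂ (by linarith) hf.meas hf.nonneg ⟨C, hC⟩ hm₂
    rw [split (by linarith : (1 : ℝ) ≤ 1 + y) (by linarith : 1 + y ≤ 2) (hgi _ _) (hgi _ _)]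
    have hB1 : m₁ * Real.log ((1 + y - 1) / m₁) ≤ m₁ * Real.log 2 + y / 2 - m₁ := by
      rcases hm₁0.eq_or_lt with h0 | h0
      · rw [← h0]
        simp only [zero_mul, zero_add, sub_zero]
        linarith
      · have h2 : (1 + y - 1) / m₁ = 2 * (y / (2 * m₁)) := by
          field_simp
          ring
        have h3 : 0 < y / (2 * m₁) := by positivity
        rw [h2, Real.log_mul two_ne_zero h3.ne']
        have h4 := Real.log_le_sub_one_of_pos h3
        have h5 : m₁ * (y / (2 * m₁)) = y / 2 := by field_simp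
        nlinarith
    have hB2 : m₂ * Real.log ((2 - (1 + y)) / m₂) ≤ (1 - y) - m₂ := by
      rcases hm₂0.eq_or_lt with h0 | h0
      · rw [← h0]
        simp only [zero_mul, sub_zero]
        linarith
      · have h3 : 0 < (2 - (1 + y)) / m₂ := div_pos (by linarith) h0
        have h4 := Real.log_le_sub_one_of_pos h3
        have h5 : m₂ * ((2 - (1 + y)) / m₂) = 1 - y := by
          field_simp
          ring
        nlinarith
    have hlog2 : Real.log 2 < 0.7 := lt_trans Real.log_two_lt_d9 (by norm_num)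
    have hlog2' : 0 < Real.log 2 := Real.log_pos one_lt_two
    have h6 : m₁ * Real.log 2 ≤ 1 / 2 * y * Real.log 2 := mul_le_mul_of_nonneg_right hm₁y hlog2'.le
    have h7 : y * Real.log 2 ≤ y * 0.7 := mul_le_mul_of_nonneg_left hlog2.le hypos.le
    have h8 : 3 / 20 * L / s = 3 / 20 * y := by
      rw [hy]
      ring
    rw [h8]
    linarith

theorem taskRight : TaskRight := Right

end Q126.RM
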