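import Pool.Agent.Q126.RM.Stmts

namespace Q126.RM

open MeasureTheory Set
open scoped ENNReal

noncomputable section

namespace SuperAux

lemma slope {f : ℝ → ℝ} (hf : LC f) (h1 : 0 < f 1) {x1 x2 : ℝ} (hx1 : x1 < 1) (hx2 : 1 < x2)
    (hf1 : 0 < f x1) (hf2 : 0 < f x2) :
    (Real.log (f x2) - Real.log (f 1)) / (x2 - 1) ≤ (Real.log (f x1) - Real.log (f 1)) / (x1 - 1) := by
  have hd : 0 < x2 - x1 := by linarith
  set l : ℝ := (x2 - 1) / (x2 - x1) with hl
  have hl0 : 0 < l := div_pos (by linarith) hd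
  have hl1 : l < 1 := by rw [hl, div_lt_one hd]; linarith
  have e1 : l * x1 + (1 - l) * x2 = 1 := by
    rw [hl]
    field_simp
    ring
  have h := hf.lc x1 x2 l hl0 hl1
  rw [e1] at h
  have h2 := Real.log_le_log (mul_pos (Real.rpow_pos_of_pos hf1 _) (Real.rpow_pos_of_pos hf2 _)) h
  rw [Real.log_mul (Real.rpow_pos_of_pos hf1 _).ne' (Real.rpow_pos_of_pos hf2 _).ne',
    Real.log_rpow hf1, Real.log_rpow hf2] at h2
  have h3 : (x2 - 1) * (Real.log (f x1) - Real.log (f 1)) +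
      (1 - x1) * (Real.log (f x2) - Real.log (f 1)) ≤ 0 := by
    have e2 : l * (x2 - x1) = x2 - 1 := by rw [hl]; field_simp
    have e3 : (1 - l) * (x2 - x1) = 1 - x1 := by linear_combination -e2
    rw [← e2, ← e3]
    have h4 : (l * Real.log (f x1) + (1 - l) * Real.log (f x2) - Real.log (f 1)) * (x2 - x1) ≤ 0 :=
      mul_nonpos_of_nonpos_of_nonneg (by linarith) hd.le
    linarith
  have h5 : (Real.log (f x1) - Real.log (f 1)) / (x1 - 1) =
      -(Real.log (f x1) - Real.log (f 1)) / (1 - x1) := by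
    rw [neg_div, ← div_neg]
    congr 1
    ring
  rw [h5, div_le_div_iff₀ (by linarith) (by linarith)]
  linarith

end SuperAux

open SuperAux in
/-- supporting line, if `f` is positive somewhere on both sides of 1 -/
theorem Super2 : ∀ f : ℝ → ℝ, LC f → 0 < f 1 → (∃ x < 1, 0 < f x) → (∃ x > 1, 0 < f x) →
    ∃ s : ℝ, ∀ x, f x ≤ f 1 * Real.exp (s * (x - 1)) := by
  rintro f hf h1 ⟨x1, hx1, hf1⟩ ⟨x2, hx2, hf2⟩
  let R : Set ℝ := {r | ∃ x, 1 < x ∧ 0 < f x ∧ r = (Real.log (f x) - Real.log (f 1)) / (x - 1)}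
  have hne : R.Nonempty := ⟨_, x2, hx2, hf2, rfl⟩
  have hbd : ∀ x, x < 1 → 0 < f x → ∀ r ∈ R, r ≤ (Real.log (f x) - Real.log (f 1)) / (x - 1) := by
    rintro x hx hfx _ ⟨y, hy, hfy, rfl⟩
    exact slope hf h1 hx hy hfx hfy
  have hba : BddAbove R := ⟨_, hbd x1 hx1 hf1⟩
  refine ⟨sSup R, fun x => ?_⟩
  rcases (hf.nonneg x).eq_or_lt with h0 | hpos
  · rw [← h0]
    positivity
  have key : Real.log (f x) - Real.log (f 1) ≤ sSup R * (x - 1) → 
      f x ≤ f 1 * Real.exp (sSup R * (x - 1)) := by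
    intro h
    rw [← Real.exp_log hpos]
    conv_rhs => rw [← Real.exp_log h1]
    rw [← Real.exp_add]
    apply Real.exp_le_exp.2
    linarith
  rcases lt_trichotomy x 1 with hx | rfl | hx
  · apply key
    have h2 : sSup R ≤ (Real.log (f x) - Real.log (f 1)) / (x - 1) :=
      csSup_le hne (hbd x hx hpos)
    have h3 : x - 1 < 0 := by linarith
    rw [le_div_iff_of_neg h3] at h2
    exact h2
  · simp
  · apply key
    have h2 : (Real.log (f x) - Real.log (f 1)) / (x - 1) ≤ sSup R :=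
      le_csSup hba ⟨x, hx, hpos, rfl⟩
    rwa [div_le_iff₀ (by linarith)] at h2

theorem exists_left {f : ℝ → ℝ} (hf : LC f) (he : 0 < eps f) : ∃ x < 1, 0 < f x := by
  by_contra hcon
  push Not at hcon
  have h0 : ∀ x, x < 1 → f x = 0 := fun x hx => le_antisymm (hcon x hx) (hf.nonneg x)
  have h1 : eps f = 0 := by
    unfold eps
    rw [integral_Ioc_eq_integral_Ioo]
    rw [setIntegral_congr_fun measurableSet_Ioo (g := fun _ => (0 : ℝ)) (fun x hx => h0 x hx.2)]
    simp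
  linarith

theorem exists_right {f : ℝ → ℝ} (hf : LC f) (he : eps f < 1) : ∃ x > 1, 0 < f x := by
  by_contra hcon
  push Not at hcon
  have h0 : ∀ x, 1 < x → f x = 0 := fun x hx => le_antisymm (hcon x hx) (hf.nonneg x)
  have h1 : eps f = ∫ t, f t := by
    unfold eps
    apply setIntegral_eq_integral_of_forall_compl_eq_zero
    intro x hx
    by_cases h : x ∈ Ioc (0 : ℝ) 2
    · apply h0
      by_contra hx1
      exact hx ⟨h.1, not_lt.1 hx1⟩
    · exact hf.supp x h
  rw [hf.one] at h1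
  linarith

theorem Super3 : ∀ f : ℝ → ℝ, LC f → 0 < f 1 → 0 < eps f → eps f < 1 →
    ∃ s : ℝ, ∀ x, f x ≤ f 1 * Real.exp (s * (x - 1)) := fun f hf h1 h2 h3 =>
  Super2 f hf h1 (exists_left hf h2) (exists_right hf h3)

end

end Q126.RM
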