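import Pool.Agent.Q126.RM.Stmts

/-! MP_1c6531_pr, blueprint of helper126: symmetry under relabelling. -/

set_option autoImplicit false

namespace Q126.RM

open MeasureTheory Set
open scoped ENNReal

namespace SymAux

/-- the map on pairs induced by a permutation -/
def psi {n : ℕ} (π : Equiv.Perm (Fin n)) (p : E n) : E n :=
  if h : π p.1.1 < π p.1.2 then ⟨(π p.1.1, π p.1.2), h⟩
  else ⟨(π p.1.2, π p.1.1), lt_of_le_of_ne (not_lt.1 h) (fun hh => (ne_of_gt p.2) (π.injective hh))⟩

theorem psi_psi {n : ℕ} (π : Equiv.Perm (Fin n)) (p : E n) : psi π.symm (psi π p) = p := by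
  obtain ⟨⟨i, j⟩, hij⟩ := p
  change i < j at hij
  by_cases h : π i < π j
  · have h1 : psi π ⟨(i, j), hij⟩ = ⟨(π i, π j), h⟩ := by
      unfold psi; rw [dif_pos h]
    rw [h1]
    unfold psi
    simp [hij]
  · have h1 : psi π ⟨(i, j), hij⟩ = ⟨(π j, π i),
        lt_of_le_of_ne (not_lt.1 h) (fun hh => (ne_of_gt hij) (π.injective hh))⟩ := by
      unfold psi; rw [dif_neg h]
    rw [h1]
    unfold psi
    simp [not_lt.2 hij.le]

/-- the permutation of the pairs -/
def phi {n : ℕ} (π : Equiv.Perm (Fin n)) : E n ≃ E n where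
  toFun := psi π
  invFun := psi π.symm
  left_inv := psi_psi π
  right_inv := psi_psi π.symm

theorem psi_pos {n : ℕ} (π : Equiv.Perm (Fin n)) (i j : Fin n) (hij : i < j) (h : π i < π j) :
    psi π ⟨(i, j), hij⟩ = ⟨(π i, π j), h⟩ := by
  unfold psi; rw [dif_pos h]

theorem psi_neg {n : ℕ} (π : Equiv.Perm (Fin n)) (i j : Fin n) (hij : i < j) (h : π j < π i) :
    psi π ⟨(i, j), hij⟩ = ⟨(π j, π i), h⟩ := by
  unfold psi; rw [dif_neg (not_lt.2 h.le)]

theorem D_comp {n : ℕ} (π : Equiv.Perm (Fin n)) (x : E n → ℝ) (i j : Fin n) :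
    D (fun e => x (psi π e)) i j = D x (π i) (π j) := by
  unfold D
  rcases lt_trichotomy i j with h | h | h
  · rw [dif_pos h]
    change x (psi π ⟨(i, j), h⟩) = _
    rcases lt_or_gt_of_ne (fun hh => (ne_of_lt h) (π.injective hh)) with h' | h'
    · rw [psi_pos π i j h h', dif_pos h']
    · rw [psi_neg π i j h h', dif_neg (not_lt.2 h'.le), dif_pos h']
  · subst h
    simp
  · rw [dif_neg (not_lt.2 h.le), dif_pos h]
    change x (psi π ⟨(j, i), h⟩) = _
    rcases lt_or_gt_of_ne (fun hh => (ne_of_lt h) (π.injective hh)) with h' | h'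
    · rw [psi_pos π j i h h', dif_neg (not_lt.2 h'.le), dif_pos h']
    · rw [psi_neg π j i h h', dif_pos h']

theorem mem_M_comp {n : ℕ} (π : Equiv.Perm (Fin n)) {x : E n → ℝ} (hx : x ∈ M n) :
    (fun e => x (psi π e)) ∈ M n := by
  refine ⟨fun e => hx.1 (psi π e), fun i j k hij hik hjk => ?_⟩
  rw [D_comp, D_comp, D_comp]
  exact hx.2 _ _ _ (fun h => hij (π.injective h)) (fun h => hik (π.injective h))
    (fun h => hjk (π.injective h))

theorem exists_perm {n : ℕ} (e e' : E n) : ∃ π : Equiv.Perm (Fin n), psi π e = e' := by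
  obtain ⟨⟨a, b⟩, hab⟩ := e
  obtain ⟨⟨a', b'⟩, hab'⟩ := e'
  change a < b at hab
  change a' < b' at hab'
  set σ := Equiv.swap a a' with hσ
  have hσa : σ a = a' := Equiv.swap_apply_left a a'
  have hne : σ b ≠ a' := by
    rw [← hσa]
    exact fun h => (ne_of_gt hab) (σ.injective h)
  refine ⟨Equiv.swap (σ b) b' * σ, ?_⟩
  have h1 : (Equiv.swap (σ b) b' * σ) a = a' := by
    rw [Equiv.Perm.mul_apply, hσa]
    exact Equiv.swap_apply_of_ne_of_ne hne.symm (ne_of_lt hab')
  have h2 : (Equiv.swap (σ b) b' * σ) b = b' := by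
    rw [Equiv.Perm.mul_apply]
    exact Equiv.swap_apply_left _ _
  unfold psi
  rw [dif_pos (by rw [h1, h2]; exact hab')]
  apply Subtype.ext
  exact Prod.ext h1 h2

end SymAux

open SymAux in
/-- symmetry of the marginals -/
theorem Sym : TaskSym := by
  intro n e e' g hg
  obtain ⟨π, hπ⟩ := exists_perm e e'
  have hT := volume_measurePreserving_piCongrLeft (fun _ : E n => ℝ) (phi π).symm
  have hval : ∀ (x : E n → ℝ) (p : E n),
      MeasurableEquiv.piCongrLeft (fun _ : E n => ℝ) (phi π).symm x p = x (psi π p) := by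
    intro x p
    have h := MeasurableEquiv.piCongrLeft_apply_apply (β := fun _ : E n => ℝ) (phi π).symm x
      (psi π p)
    have h2 : (phi π).symm (psi π p) = p := psi_psi π p
    rw [h2] at h
    exact h
  have hpre : MeasurableEquiv.piCongrLeft (fun _ : E n => ℝ) (phi π).symm ⁻¹' M n = M n := by
    ext x
    rw [Set.mem_preimage]
    have hfun : MeasurableEquiv.piCongrLeft (fun _ : E n => ℝ) (phi π).symm x
        = fun p => x (psi π p) := funext (hval x)
    rw [hfun]
    constructor
    · intro h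
      have h3 := mem_M_comp π.symm h
      have h4 : (fun p => x (psi π (psi π.symm p))) = x := by
        funext p
        exact congrArg x (psi_psi π.symm p)
      rwa [h4] at h3
    · exact mem_M_comp π
  have key := hT.setLIntegral_comp_preimage_emb (MeasurableEquiv.measurableEmbedding _)
    (fun x => g (x e)) (M n)
  rw [hpre] at key
  rw [← key]
  refine lintegral_congr fun x => ?_
  rw [hval, hπ]

end Q126.RM
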