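import Pool.Agent.Q126.RM.Stmts

/-! MP_1c6531_pr, blueprint of helper126: lower bound for the volume. -/

set_option autoImplicit false

namespace Q126.RM

open MeasureTheory Set
open scoped ENNReal

namespace VolAux

theorem card_E (n : ℕ) : Fintype.card (E n) * 2 = n * (n - 1) := by
  have h : Fintype.card (E n) = ∑ j : Fin n, (j : ℕ) := by
    rw [Fintype.card_subtype, Finset.card_filter, Fintype.sum_prod_type_right]
    refine Finset.sum_congr rfl fun j _ => ?_
    rw [← Finset.card_filter]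
    have : (Finset.univ.filter fun i : Fin n => i < j) = Finset.Iio j := by
      ext i; simp
    rw [this, Fin.card_Iio]
  rw [h, Fin.sum_univ_eq_sum_range (fun i => i) n]
  exact Finset.sum_range_id_mul_two n

theorem card_ge (n : ℕ) (hn : 3 ≤ n) : (n : ℝ) ^ 2 / 3 ≤ (Fintype.card (E n) : ℝ) := by
  have h := card_E n
  have h' : ((Fintype.card (E n) : ℕ) : ℝ) * 2 = n * (n - 1) := by
    have := congrArg (fun k : ℕ => (k : ℝ)) h
    push_cast at this
    rw [Nat.cast_sub (by omega)] at this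
    simpa using this
  have hn' : (3 : ℝ) ≤ n := by exact_mod_cast hn
  nlinarith

end VolAux

open VolAux in
/-- the volume of the metric polytope is large -/
theorem Vol : TaskVol := by
  intro hMeas hBox hCherry hJensen n hn
  have hfin : volume (M n) < ⊤ := (hMeas n).2.2.2
  have hn' : (3 : ℝ) ≤ n := by exact_mod_cast hn
  set s : ℝ := Real.sqrt n with hs
  have hs2 : s ^ 2 = n := Real.sq_sqrt (by positivity)
  have hs1 : 1 ≤ s := by
    rw [hs]
    exact Real.one_le_sqrt.2 (by linarith)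
  have hs0 : 0 < s := by linarith
  set a : ℝ := 1 / (8 * s) with ha
  have ha0 : 0 < a := by positivity
  have ha8 : a ≤ 1 / 8 := by
    rw [ha]
    apply one_div_le_one_div_of_le (by norm_num)
    linarith
  have has : a * s = 1 / 8 := by
    rw [ha]; field_simp
  have hbox := hBox n a ha0 ha8 hfin
  have hcherry := hCherry n a ha0 ha8
  set N := Fintype.card (E n) with hN
  have hsum : ∑ B : Finset (E n), (2 * a) ^ B.card * (1 - a) ^ (N - B.card) = (1 + a) ^ N := by
    rw [Fintype.sum_pow_mul_eq_add_pow]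
    congr 1
    ring
  set ρ : ℝ := (1 - 3 * a) / (1 - a) with hρ
  have h1a : 0 < 1 - a := by linarith
  have h13a : 0 < 1 - 3 * a := by linarith
  have hρ0 : 0 < ρ := div_pos h13a h1a
  have hρ1 : ρ ≤ 1 := by
    rw [hρ, div_le_one h1a]; linarith
  have hjen := hJensen (Finset (E n)) Finset.univ
    (fun B => (2 * a) ^ B.card * (1 - a) ^ (N - B.card)) (fun B => (clo B).card) ρ
    (2 * a ^ 2 * (n : ℝ) ^ 3) hρ0 hρ1 (fun B _ => by positivity)
    (by rw [hsum]; positivity) (by rw [hsum]; exact hcherry)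
  rw [hsum] at hjen
  refine le_trans ?_ (hjen.trans hbox)
  -- numerical estimates
  have e1 : Real.exp (a / 2) ≤ 1 + a := by
    have h := Real.abs_exp_sub_one_sub_id_le (x := a / 2) (by
      rw [abs_of_nonneg (by positivity)]; linarith)
    have h2 := (abs_le.1 h).2
    nlinarith
  have e2 : Real.exp (-(16 / 5 * a)) ≤ ρ := by
    rw [Real.exp_neg, inv_le_comm₀ (Real.exp_pos _) hρ0]
    have h3 : ρ⁻¹ = 2 * a / (1 - 3 * a) + 1 := by
      rw [hρ, inv_div, div_add_one h13a.ne']
      congr 1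
      ring
    rw [h3]
    refine (Real.add_one_le_exp _).trans (Real.exp_le_exp.2 ?_)
    rw [div_le_iff₀ h13a]
    nlinarith
  have f1 : Real.exp ((n : ℝ) ^ 2 / 3 * (a / 2)) ≤ (1 + a) ^ N := by
    calc Real.exp ((n : ℝ) ^ 2 / 3 * (a / 2)) ≤ Real.exp (N * (a / 2)) := by
          apply Real.exp_le_exp.2
          exact mul_le_mul_of_nonneg_right (card_ge n hn) (by positivity)
      _ = Real.exp (a / 2) ^ N := by rw [Real.exp_nat_mul]
      _ ≤ (1 + a) ^ N := pow_le_pow_left₀ (Real.exp_pos _).le e1 N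
  have f2 : Real.exp (-(16 / 5 * a) * (2 * a ^ 2 * (n : ℝ) ^ 3)) ≤ ρ ^ (2 * a ^ 2 * (n : ℝ) ^ 3) := by
    rw [Real.exp_mul]
    exact Real.rpow_le_rpow (Real.exp_pos _).le e2 (by positivity)
  refine le_trans ?_ (mul_le_mul f1 f2 (Real.exp_pos _).le (by positivity))
  rw [← Real.exp_add]
  apply Real.exp_le_exp.2
  have g1 : (n : ℝ) ^ 2 / 3 * (a / 2) = s ^ 3 / 48 := by
    rw [← hs2]
    have : (s ^ 2) ^ 2 / 3 * (a / 2) = s ^ 3 * (a * s) / 6 := by ring
    rw [this, has]; ring
  have g2 : -(16 / 5 * a) * (2 * a ^ 2 * (n : ℝ) ^ 3) = - (s ^ 3 / 80) := by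
    rw [← hs2]
    have : -(16 / 5 * a) * (2 * a ^ 2 * (s ^ 2) ^ 3) = -(32 / 5) * s ^ 3 * (a * s) ^ 3 := by ring
    rw [this, has]; ring
  have g3 : (n : ℝ) * s / 120 = s ^ 3 / 120 := by
    rw [← hs2]; ring
  rw [g1, g2, g3]
  linarith

end Q126.RM
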